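import Pool.Agent.Lib.Pc23f48.Defs

set_option autoImplicit false

open MeasureTheory Complex FourierTransform Real
open scoped ENNReal ContDiff

namespace Pool.Agent.Lib.Pc23f48

variable {n : ℕ}

/-- superposition of exponentials -/
noncomputable def G (β : Measure (E n)) (b : E n → ℂ) (x : E n) : ℂ :=
  ∫ ζ, b ζ * Complex.exp (Complex.I * ((inner ℝ x ζ : ℝ) : ℂ)) ∂β

noncomputable def LL (n : ℕ) : E n →L[ℝ] E n →L[ℝ] ℝ := (-(1 / (2 * π)) : ℝ) • innerSL ℝ

lemma LL_apply (v w : E n) : LL n v w = -(1 / (2 * π)) * inner ℝ v w := by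
  unfold LL
  rfl

lemma G_eq (β : Measure (E n)) (b : E n → ℂ) :
    G β b = VectorFourier.fourierIntegral 𝐞 β (LL n).toLinearMap₁₂ b := by
  ext x
  unfold G VectorFourier.fourierIntegral
  congr 1
  ext ζ
  rw [Circle.smul_def, smul_eq_mul, mul_comm]
  congr 1
  change _ = (𝐞 (-(LL n ζ x)) : ℂ)
  rw [Real.fourierChar_apply, LL_apply]
  congr 1
  rw [real_inner_comm]
  push_cast
  have : (π : ℂ) ≠ 0 := by exact_mod_cast Real.pi_ne_zero
  field_simp

lemma norm_exp_I (a : ℝ) : ‖Complex.exp (Complex.I * (a : ℂ))‖ = 1 := by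
  rw [mul_comm]; exact Complex.norm_exp_ofReal_mul_I a

lemma norm_G_le (β : Measure (E n)) (b : E n → ℂ) (x : E n) : ‖G β b x‖ ≤ ∫ ζ, ‖b ζ‖ ∂β := by
  unfold G
  refine (norm_integral_le_integral_norm _).trans (le_of_eq ?_)
  congr 1
  ext ζ
  rw [norm_mul, norm_exp_I, mul_one]

/-- integrability of weights -/
lemma integrable_norm_pow {β : Measure (E n)} {b : E n → ℂ} {r : ℝ}
    (hβ : ∀ᵐ ζ ∂β, ‖ζ‖ ≤ r) (hb : Integrable b β) (m : ℕ) :
    Integrable (fun v => ‖v‖ ^ m * ‖b v‖) β := by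
  refine Integrable.mono' (hb.norm.const_mul (r ^ m)) ?_ ?_
  · exact ((by fun_prop : Continuous fun v : E n => ‖v‖ ^ m).aestronglyMeasurable).mul hb.1.norm
  · filter_upwards [hβ] with v hv
    rw [norm_mul, norm_pow, norm_norm, norm_norm]
    gcongr

lemma contDiff_G {β : Measure (E n)} {b : E n → ℂ} {r : ℝ}
    (hβ : ∀ᵐ ζ ∂β, ‖ζ‖ ≤ r) (hb : Integrable b β) : ContDiff ℝ ∞ (G β b) := by
  rw [G_eq]
  exact VectorFourier.contDiff_fourierIntegral (LL n) (fun m _ => integrable_norm_pow hβ hb m)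

lemma integrable_coord {β : Measure (E n)} {b : E n → ℂ} {r : ℝ}
    (hβ : ∀ᵐ ζ ∂β, ‖ζ‖ ≤ r) (hb : Integrable b β) (k : Fin n) :
    Integrable (fun ζ => ((ζ k : ℝ) : ℂ) * b ζ) β := by
  refine Integrable.mono' (hb.norm.const_mul r) ?_ ?_
  · exact ((by fun_prop : Continuous fun v : E n => ((v k : ℝ) : ℂ)).aestronglyMeasurable).mul hb.1
  · filter_upwards [hβ] with v hv
    rw [norm_mul, Complex.norm_real]
    gcongr
    exact (PiLp.norm_apply_le v k).trans hv

lemma D_G {β : Measure (E n)} {b : E n → ℂ} {r : ℝ}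
    (hβ : ∀ᵐ ζ ∂β, ‖ζ‖ ≤ r) (hb : Integrable b β) (k : Fin n) :
    D k (G β b) = G β (fun ζ => ((ζ k : ℝ) : ℂ) * b ζ) := by
  ext x
  unfold D
  have h1 := VectorFourier.hasFDerivAt_fourierIntegral (LL n) hb
    (by simpa using integrable_norm_pow hβ hb 1) x
  rw [← G_eq] at h1
  rw [h1.fderiv]
  have hint : Integrable (fun v => 𝐞 (-(LL n v x)) • VectorFourier.fourierSMulRight (LL n) b v) β := by
    have hs : Integrable (VectorFourier.fourierSMulRight (LL n) b) β := by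
      refine Integrable.mono' ((integrable_norm_pow hβ hb 1).const_mul (2 * π * ‖LL n‖)) ?_ ?_
      · exact hb.1.fourierSMulRight
      · filter_upwards with v
        refine (VectorFourier.norm_fourierSMulRight_le (LL n) b v).trans (le_of_eq ?_)
        ring
    exact (VectorFourier.fourierIntegral_convergent_iff continuous_fourierChar
      (by apply (LL n).continuous₂ : Continuous (fun p : E n × E n ↦ (LL n).toLinearMap₁₂ p.1 p.2))
      x).2 hs
  have h2 : (VectorFourier.fourierIntegral 𝐞 β (LL n).toLinearMap₁₂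
      (VectorFourier.fourierSMulRight (LL n) b) x) (EuclideanSpace.single k 1) =
      ∫ v, (𝐞 (-(LL n v x)) • VectorFourier.fourierSMulRight (LL n) b v)
        (EuclideanSpace.single k 1) ∂β := by
    exact (ContinuousLinearMap.integral_apply hint _)
  rw [h2, ← integral_const_mul]
  unfold G
  congr 1
  ext v
  have e0 : (𝐞 (-(LL n v x)) • VectorFourier.fourierSMulRight (LL n) b v)
      (EuclideanSpace.single k 1) =
      𝐞 (-(LL n v x)) • (VectorFourier.fourierSMulRight (LL n) b v (EuclideanSpace.single k 1)) := rfl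
  rw [e0, VectorFourier.fourierSMulRight_apply, Circle.smul_def,
    smul_eq_mul, Real.fourierChar_apply, LL_apply, LL_apply]
  have e1 : (inner ℝ v (EuclideanSpace.single k (1:ℝ)) : ℝ) = v k := by
    rw [EuclideanSpace.inner_single_right]; simp
  rw [e1, real_inner_comm]
  have e2 : Complex.exp (((2 * π * -(-(1 / (2 * π)) * inner ℝ x v) : ℝ) : ℂ) * Complex.I) =
      Complex.exp (Complex.I * ((inner ℝ x v : ℝ) : ℂ)) := by
    congr 1
    push_cast
    have : (π : ℂ) ≠ 0 := by exact_mod_cast Real.pi_ne_zero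
    field_simp
  rw [e2]
  have e3 : (π : ℂ) ≠ 0 := by exact_mod_cast Real.pi_ne_zero
  rw [Complex.real_smul]
  simp only [smul_eq_mul]
  push_cast
  have := Complex.I_mul_I
  field_simp
  linear_combination (-(((v k : ℝ) : ℂ) * b v)) * Complex.I_sq

lemma D_iter_G {β : Measure (E n)} {b : E n → ℂ} {r : ℝ}
    (hβ : ∀ᵐ ζ ∂β, ‖ζ‖ ≤ r) (hb : Integrable b β) (k : Fin n) (m : ℕ) :
    (D k)^[m] (G β b) = G β (fun ζ => ((ζ k : ℝ) : ℂ) ^ m * b ζ) ∧
      Integrable (fun ζ => ((ζ k : ℝ) : ℂ) ^ m * b ζ) β := by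
  induction m with
  | zero => simpa using hb
  | succ m ih =>
    obtain ⟨h1, h2⟩ := ih
    rw [Function.iterate_succ_apply', h1, D_G hβ h2]
    have e : (fun ζ : E n => ((ζ k : ℝ) : ℂ) * (((ζ k : ℝ) : ℂ) ^ m * b ζ)) =
        fun ζ => ((ζ k : ℝ) : ℂ) ^ (m + 1) * b ζ := by
      ext ζ; ring
    rw [e]
    refine ⟨rfl, ?_⟩
    rw [← e]
    exact integrable_coord hβ h2 k

lemma foldr_G {β : Measure (E n)} {b : E n → ℂ} {r : ℝ}
    (hβ : ∀ᵐ ζ ∂β, ‖ζ‖ ≤ r) (hb : Integrable b β) (α : Fin n →₀ ℕ) (l : List (Fin n)) :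
    l.foldr (fun k g => (D k)^[α k] g) (G β b) =
      G β (fun ζ => (l.map (fun k => ((ζ k : ℝ) : ℂ) ^ α k)).prod * b ζ) ∧
      Integrable (fun ζ => (l.map (fun k => ((ζ k : ℝ) : ℂ) ^ α k)).prod * b ζ) β := by
  induction l with
  | nil => simpa using hb
  | cons k l ih =>
    obtain ⟨h1, h2⟩ := ih
    rw [List.foldr_cons, h1]
    obtain ⟨h3, h4⟩ := D_iter_G hβ h2 k (α k)
    have e : (fun ζ : E n => (((k :: l).map (fun k => ((ζ k : ℝ) : ℂ) ^ α k)).prod * b ζ)) =
        fun ζ => ((ζ k : ℝ) : ℂ) ^ α k * ((l.map (fun k => ((ζ k : ℝ) : ℂ) ^ α k)).prod * b ζ) := by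
      ext ζ
      rw [List.map_cons, List.prod_cons, mul_assoc]
    rw [e]
    exact ⟨h3, h4⟩

lemma Dpow_G {β : Measure (E n)} {b : E n → ℂ} {r : ℝ}
    (hβ : ∀ᵐ ζ ∂β, ‖ζ‖ ≤ r) (hb : Integrable b β) (α : Fin n →₀ ℕ) :
    Dpow α (G β b) = G β (fun ζ => (∏ k, ((ζ k : ℝ) : ℂ) ^ α k) * b ζ) ∧
      Integrable (fun ζ => (∏ k, ((ζ k : ℝ) : ℂ) ^ α k) * b ζ) β := by
  have h := foldr_G hβ hb α (List.finRange n)
  unfold Dpow
  simp_rw [Fin.prod_univ_def]
  exact h

lemma opD_G {β : Measure (E n)} {b : E n → ℂ} {r : ℝ}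
    (hβ : ∀ᵐ ζ ∂β, ‖ζ‖ ≤ r) (hb : Integrable b β) (τ : MvPolynomial (Fin n) ℂ) :
    opD τ (G β b) = G β (fun ζ => symb τ ζ * b ζ) := by
  ext x
  unfold opD
  have h1 : ∀ α : Fin n →₀ ℕ, τ.coeff α * Dpow α (G β b) x =
      ∫ ζ, τ.coeff α * (((∏ k, ((ζ k : ℝ) : ℂ) ^ α k) * b ζ) *
        Complex.exp (Complex.I * ((inner ℝ x ζ : ℝ) : ℂ))) ∂β := by
    intro α
    rw [(Dpow_G hβ hb α).1, integral_const_mul]
    rfl
  simp_rw [h1]
  rw [← integral_finsetSum]
  · unfold G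
    congr 1
    ext ζ
    unfold symb
    simp only
    rw [MvPolynomial.eval_eq']
    rw [Finset.sum_mul, Finset.sum_mul]
    refine Finset.sum_congr rfl fun α _ => ?_
    ring
  · intro α _
    refine Integrable.const_mul ?_ _
    have hi := (Dpow_G hβ hb α).2
    refine Integrable.mono' hi.norm ?_ ?_
    · exact hi.1.mul (by fun_prop : Continuous fun ζ : E n =>
        Complex.exp (Complex.I * ((inner ℝ x ζ : ℝ) : ℂ))).aestronglyMeasurable
    · filter_upwards with ζ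
      rw [norm_mul, norm_exp_I, mul_one]

lemma ft_eq (ψ : E n → ℂ) (x : E n) : ft ψ x = 𝓕 ψ ((1 / (2 * π)) • x) := by
  unfold ft
  rw [Real.fourier_eq]
  congr 1
  ext v
  rw [Circle.smul_def, smul_eq_mul, Real.fourierChar_apply, mul_comm, inner_smul_right]
  congr 2
  push_cast
  have : (π : ℂ) ≠ 0 := by exact_mod_cast Real.pi_ne_zero
  field_simp

lemma integrable_ft (ψ : SchwartzMap (E n) ℂ) : Integrable (ft ψ) := by
  have h : ft ψ = fun x => 𝓕 (ψ : E n → ℂ) ((1 / (2 * π)) • x) := by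
    ext x; exact ft_eq _ x
  rw [h]
  have h2 : Integrable (𝓕 (ψ : E n → ℂ)) := by
    rw [← SchwartzMap.fourier_coe]
    exact (𝓕 ψ).integrable
  exact h2.comp_smul (by positivity)

lemma integral_exp_ft (ψ : SchwartzMap (E n) ℂ) (ζ : E n) :
    ∫ x, Complex.exp (Complex.I * ((inner ℝ x ζ : ℝ) : ℂ)) * ft ψ x =
      (2 * π) ^ n * ψ ζ := by
  have h1 : ∀ x : E n, Complex.exp (Complex.I * ((inner ℝ x ζ : ℝ) : ℂ)) * ft ψ x =
      (fun y : E n => Complex.exp (2 * π * Complex.I * ((inner ℝ y ζ : ℝ) : ℂ)) *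
        𝓕 (ψ : E n → ℂ) y) ((1 / (2 * π)) • x) := by
    intro x
    simp only
    rw [ft_eq, inner_smul_left]
    congr 2
    have : (π : ℂ) ≠ 0 := by exact_mod_cast Real.pi_ne_zero
    simp
    field_simp
  rw [integral_congr_ae (Filter.Eventually.of_forall h1),
    Measure.integral_comp_smul volume (fun y : E n =>
      Complex.exp (2 * π * Complex.I * ((inner ℝ y ζ : ℝ) : ℂ)) * 𝓕 (ψ : E n → ℂ) y) (1 / (2 * π))]
  have h2 : ψ ζ = ∫ y : E n, Complex.exp (2 * π * Complex.I * ((inner ℝ y ζ : ℝ) : ℂ)) *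
        𝓕 (ψ : E n → ℂ) y := by
    have h3 : 𝓕⁻ (𝓕 (ψ : E n → ℂ)) = ψ := by
      apply Continuous.fourierInv_fourier_eq ψ.continuous ψ.integrable
      rw [← SchwartzMap.fourier_coe]
      exact (𝓕 ψ).integrable
    have h4 := congrFun h3 ζ
    rw [Real.fourierInv_eq] at h4
    rw [← h4]
    congr 1
    ext v
    rw [Circle.smul_def, smul_eq_mul, Real.fourierChar_apply]
    congr 2
    push_cast
    ring
  rw [← h2]
  rw [Complex.real_smul]
  congr 1
  rw [finrank_euclideanSpace_fin]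
  have : 0 < π := Real.pi_pos
  rw [abs_of_pos (by positivity)]
  push_cast
  simp
  rw [← inv_pow, mul_inv, inv_inv, inv_inv, mul_comm]

lemma G_mem_Bernstein {β : Measure (E n)} [IsFiniteMeasure β] {b : E n → ℂ} {r : ℝ}
    {K : Set (E n)} (hβK : ∀ᵐ ζ ∂β, ζ ∈ K)
    (hβ : ∀ᵐ ζ ∂β, ‖ζ‖ ≤ r) (hb : Integrable b β) : G β b ∈ Bernstein K := by
  refine ⟨contDiff_G hβ hb, ⟨_, norm_G_le β b⟩, ?_⟩
  intro ψ hψ
  have h1 : ∀ x, G β b x * ft ψ x =
      ∫ ζ, b ζ * (Complex.exp (Complex.I * ((inner ℝ x ζ : ℝ) : ℂ)) * ft ψ x) ∂β := by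
    intro x
    unfold G
    rw [← integral_mul_const]
    congr 1
    ext ζ
    ring
  simp_rw [h1]
  rw [integral_integral_swap]
  · simp_rw [integral_const_mul, integral_exp_ft]
    apply integral_eq_zero_of_ae
    filter_upwards [hβK] with ζ hζ
    have : ψ ζ = 0 := by
      by_contra h
      exact Set.disjoint_left.1 hψ (subset_tsupport _ h) hζ
    rw [this]
    simp
  · have hi : Integrable (fun p : E n × E n => ft ψ p.1 * b p.2) (volume.prod β) :=
      (integrable_ft ψ).mul_prod hb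
    refine Integrable.mono' hi.norm ?_ ?_
    · have : (Function.uncurry fun x ζ => b ζ *
          (Complex.exp (Complex.I * ((inner ℝ x ζ : ℝ) : ℂ)) * ft ψ x)) =
          fun p : E n × E n => (ft ψ p.1 * b p.2) *
            Complex.exp (Complex.I * ((inner ℝ p.1 p.2 : ℝ) : ℂ)) := by
        ext p
        simp only [Function.uncurry]
        ring
      rw [this]
      exact hi.1.mul (by fun_prop : Continuous fun p : E n × E n =>
        Complex.exp (Complex.I * ((inner ℝ p.1 p.2 : ℝ) : ℂ))).aestronglyMeasurable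
    · filter_upwards with p
      simp only [Function.uncurry]
      rw [norm_mul, norm_mul, norm_mul, norm_exp_I, one_mul, mul_comm]

end Pool.Agent.Lib.Pc23f48
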