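import Mathlib

set_option autoImplicit false

open MeasureTheory
open scoped ENNReal ContDiff

namespace Pool.Agent.Lib.Pc23f48

/-- Euclidean space of dimension `n`. -/
abbrev E (n : ℕ) := EuclideanSpace ℝ (Fin n)

/-- The Fourier transform `ψ^(ξ) = ∫ ψ(x) exp(-i⟨x,ξ⟩) dx`. -/
noncomputable def ft {n : ℕ} (ψ : E n → ℂ) (ξ : E n) : ℂ :=
  ∫ x, ψ x * Complex.exp (-(Complex.I * ((inner ℝ x ξ : ℝ) : ℂ)))

/-- The Bernstein space `B(K)`: bounded smooth functions `f` whose (distributional) Fourier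
transform is supported in `K`, i.e. `∫ f ψ^ = 0` for all Schwartz functions `ψ` whose support is
disjoint from `K`. -/
def Bernstein {n : ℕ} (K : Set (E n)) : Set (E n → ℂ) :=
  {f | ContDiff ℝ ∞ f ∧ (∃ C : ℝ, ∀ x, ‖f x‖ ≤ C) ∧
    ∀ ψ : SchwartzMap (E n) ℂ, Disjoint (tsupport ψ) K → ∫ x, f x * ft ψ x = 0}

/-- `D_k = (1/i) ∂/∂x_k`. -/
noncomputable def D {n : ℕ} (k : Fin n) (f : E n → ℂ) : E n → ℂ :=
  fun x => -Complex.I * fderiv ℝ f x (EuclideanSpace.single k 1)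

/-- `D^α = D_0^{α_0} D_1^{α_1} ⋯ D_{n-1}^{α_{n-1}}`. -/
noncomputable def Dpow {n : ℕ} (α : Fin n →₀ ℕ) (f : E n → ℂ) : E n → ℂ :=
  (List.finRange n).foldr (fun k g => (D k)^[α k] g) f

/-- `τ(D) = ∑_α c_α D^α` for a polynomial `τ = ∑_α c_α ξ^α`. -/
noncomputable def opD {n : ℕ} (τ : MvPolynomial (Fin n) ℂ) (f : E n → ℂ) : E n → ℂ :=
  fun x => ∑ α ∈ τ.support, τ.coeff α * Dpow α f x

/-- The value `τ(ξ)` at a real point `ξ`. -/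
noncomputable def symb {n : ℕ} (τ : MvPolynomial (Fin n) ℂ) (ξ : E n) : ℂ :=
  MvPolynomial.eval (fun k => ((ξ k : ℝ) : ℂ)) τ

/-- The norm of `τ(D)` on `B(K)` with the sup norm, as an extended nonnegative real. -/
noncomputable def opNorm {n : ℕ} (τ : MvPolynomial (Fin n) ℂ) (K : Set (E n)) : ℝ≥0∞ :=
  ⨆ f ∈ {f : E n → ℂ | f ∈ Bernstein K ∧ ∀ x, ‖f x‖ ≤ 1}, ⨆ x, ‖opD τ f x‖ₑ

/-- `τ = ρ ∘ ψ` for a real linear form `ψ(ξ) = ⟨a, ξ⟩` and a polynomial `ρ` in one variable. -/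
def IsRidge {n : ℕ} (τ : MvPolynomial (Fin n) ℂ) : Prop :=
  ∃ (a : E n) (ρ : Polynomial ℂ), ∀ ξ : E n, symb τ ξ = ρ.eval (((inner ℝ a ξ : ℝ) : ℂ))

end Pool.Agent.Lib.Pc23f48
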