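import Pool.Agent.Lib.Pc23f48.Moment2

set_option autoImplicit false
set_option linter.unusedSectionVars false

open MeasureTheory Complex Real Filter Topology Polynomial
open scoped ENNReal ComplexConjugate

namespace Pool.Agent.Lib.Pc23f48

variable {F : Type*} [NormedAddCommGroup F] [InnerProductSpace ℝ F] [MeasurableSpace F]
  [BorelSpace F] [SecondCountableTopology F]

lemma hasDerivAt_qv (Q : ℂ[X][X]) (t s : ℝ) :
    HasDerivAt (fun s : ℝ => qv Q t s) (qv (derivative Q) t s) s := by
  have h1 : ∀ (P : ℂ[X][X]) (s : ℝ), qv P t s = (P.map (evalRingHom (t : ℂ))).eval (s : ℂ) := by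
    intro P s
    unfold qv
    rw [map_evalRingHom_eval]
  have h2 : (fun s : ℝ => qv Q t s) = fun s : ℝ => (Q.map (evalRingHom (t : ℂ))).eval (s : ℂ) := by
    ext s; exact h1 Q s
  rw [h2, h1, ← derivative_map]
  exact ((Q.map (evalRingHom (t : ℂ))).hasDerivAt (s : ℂ)).comp_ofReal

lemma qv_neg (Q : ℂ[X][X]) (t s : ℝ) : qv (-Q) t s = -qv Q t s := by
  unfold qv
  exact evalEval_neg _ _ _

/-- differentiation under the integral sign -/
lemma hasDerivAt_integral_exp (μ : Measure F) [IsFiniteMeasure μ] (e u : F) {w : F → ℂ}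
    (hw : Continuous w) (hwi : Integrable w μ)
    (hwi2 : Integrable (fun x => ‖w x‖ * |(inner ℝ x u : ℝ)|) μ) (t s : ℝ) :
    HasDerivAt (fun s : ℝ => ∫ x, w x *
        Complex.exp (((t * inner ℝ x e + s * inner ℝ x u : ℝ) : ℂ) * I) ∂μ)
      (∫ x, (w x * (((inner ℝ x u : ℝ) : ℂ) * I)) *
        Complex.exp (((t * inner ℝ x e + s * inner ℝ x u : ℝ) : ℂ) * I) ∂μ) s := by
  refine (hasDerivAt_integral_of_dominated_loc_of_deriv_le (μ := μ) (s := Set.univ)
    (bound := fun x => ‖w x‖ * |(inner ℝ x u : ℝ)|)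
    (F := fun (s : ℝ) (x : F) => w x *
        Complex.exp (((t * inner ℝ x e + s * inner ℝ x u : ℝ) : ℂ) * I))
    (F' := fun (s : ℝ) (x : F) => (w x * (((inner ℝ x u : ℝ) : ℂ) * I)) *
        Complex.exp (((t * inner ℝ x e + s * inner ℝ x u : ℝ) : ℂ) * I))
    univ_mem ?_ ?_ ?_ ?_ hwi2 ?_).2
  · refine Filter.Eventually.of_forall fun s' => ?_
    exact (by fun_prop : Continuous fun x : F => w x *
        Complex.exp (((t * inner ℝ x e + s' * inner ℝ x u : ℝ) : ℂ) * I)).aestronglyMeasurable
  · refine Integrable.mono' hwi.norm ?_ ?_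
    · exact (by fun_prop : Continuous fun x : F => w x *
        Complex.exp (((t * inner ℝ x e + s * inner ℝ x u : ℝ) : ℂ) * I)).aestronglyMeasurable
    · refine Filter.Eventually.of_forall fun x => ?_
      rw [norm_mul, Complex.norm_exp_ofReal_mul_I, mul_one]
  · exact (by fun_prop : Continuous fun x : F => (w x * (((inner ℝ x u : ℝ) : ℂ) * I)) *
        Complex.exp (((t * inner ℝ x e + s * inner ℝ x u : ℝ) : ℂ) * I)).aestronglyMeasurable
  · refine Filter.Eventually.of_forall fun x s' _ => ?_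
    rw [norm_mul, Complex.norm_exp_ofReal_mul_I, mul_one, norm_mul, norm_mul, Complex.norm_I,
      mul_one, Complex.norm_real, Real.norm_eq_abs]
  · refine Filter.Eventually.of_forall fun x s' _ => ?_
    have h1 : HasDerivAt (fun s : ℝ => ((t * inner ℝ x e + s * inner ℝ x u : ℝ) : ℂ) * I)
        (((inner ℝ x u : ℝ) : ℂ) * I) s' := by
      have h2 : HasDerivAt (fun s : ℝ => t * inner ℝ x e + s * inner ℝ x u)
          (inner ℝ x u : ℝ) s' := by
        have := ((hasDerivAt_id s').mul_const (inner ℝ x u : ℝ)).const_add (t * inner ℝ x e)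
        simpa using this
      exact h2.ofReal_comp.mul_const I
    have h3 := (h1.cexp).const_mul (w x)
    exact h3.congr_deriv (by ring)

/-- the size-biased measure -/
noncomputable def mu2 (μ : Measure F) (u : F) : Measure F :=
  μ.withDensity fun x => ENNReal.ofReal ((inner ℝ x u : ℝ) ^ 2)

lemma reg_mu2 {μ : Measure F} [IsFiniteMeasure μ] {e u : F} {Q : ℂ[X][X]} {c₀ C : ℝ}
    (hreg : Reg μ e u Q c₀ C) (hc₀ : 0 < c₀) (hC : 0 < C) :
    IsFiniteMeasure (mu2 μ u) ∧ Reg (mu2 μ u) e u (-derivative (derivative Q)) c₀ C := by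
  have hfin := moment_lt_top hreg hc₀ hC
  have hmeas : Measurable fun x : F => ENNReal.ofReal ((inner ℝ x u : ℝ) ^ 2) := by fun_prop
  have hsq : Integrable (fun x : F => (inner ℝ x u : ℝ) ^ 2) μ := by
    refine ⟨(by fun_prop : Continuous fun x : F => (inner ℝ x u : ℝ) ^ 2).aestronglyMeasurable, ?_⟩
    rw [hasFiniteIntegral_iff_ofReal (Filter.Eventually.of_forall fun x => by positivity)]
    exact hfin
  have habs : Integrable (fun x : F => |(inner ℝ x u : ℝ)|) μ := by
    refine Integrable.mono' ((integrable_const (1 : ℝ)).add hsq) ?_ ?_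
    · exact (by fun_prop : Continuous fun x : F => |(inner ℝ x u : ℝ)|).aestronglyMeasurable
    · refine Filter.Eventually.of_forall fun x => ?_
      rw [Real.norm_eq_abs, abs_abs]
      simp only [Pi.add_apply]
      rw [← sq_abs]
      nlinarith [sq_nonneg (|(inner ℝ x u : ℝ)| - 1), abs_nonneg (inner ℝ x u : ℝ)]
  refine ⟨⟨?_⟩, ?_⟩
  · unfold mu2
    rw [withDensity_apply _ MeasurableSet.univ, Measure.restrict_univ]
    exact hfin
  · intro t s ht hts
    have hphi2 : phi (mu2 μ u) e u t s = ∫ x, (((inner ℝ x u : ℝ) ^ 2 : ℝ) : ℂ) *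
        Complex.exp (((t * inner ℝ x e + s * inner ℝ x u : ℝ) : ℂ) * I) ∂μ := by
      rw [phi_eq]
      unfold mu2
      rw [integral_withDensity_eq_integral_toReal_smul hmeas
        (Filter.Eventually.of_forall fun x => ENNReal.ofReal_lt_top)]
      congr 1
      ext x
      rw [ENNReal.toReal_ofReal (by positivity), Complex.real_smul]
    -- first derivative
    have hd1 : ∀ s : ℝ, HasDerivAt (fun s => phi μ e u t s)
        (∫ x, (((inner ℝ x u : ℝ) : ℂ) * I) *
        Complex.exp (((t * inner ℝ x e + s * inner ℝ x u : ℝ) : ℂ) * I) ∂μ) s := by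
      intro s
      have h1 := hasDerivAt_integral_exp μ e u (w := fun _ => 1) continuous_const
        (integrable_const _) (by simpa using habs) t s
      simp only [one_mul] at h1
      have h2 : (fun s => phi μ e u t s) = fun s : ℝ => ∫ x,
          Complex.exp (((t * inner ℝ x e + s * inner ℝ x u : ℝ) : ℂ) * I) ∂μ := by
        ext s; exact phi_eq μ e u t s
      rw [h2]
      exact h1
    have hd2 : HasDerivAt (fun s : ℝ => ∫ x, (((inner ℝ x u : ℝ) : ℂ) * I) *
        Complex.exp (((t * inner ℝ x e + s * inner ℝ x u : ℝ) : ℂ) * I) ∂μ)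
        (∫ x, ((((inner ℝ x u : ℝ) : ℂ) * I) * (((inner ℝ x u : ℝ) : ℂ) * I)) *
        Complex.exp (((t * inner ℝ x e + s * inner ℝ x u : ℝ) : ℂ) * I) ∂μ) s := by
      apply hasDerivAt_integral_exp μ e u (by fun_prop)
      · refine Integrable.mono' habs (by fun_prop : Continuous fun x : F =>
          (((inner ℝ x u : ℝ) : ℂ) * I)).aestronglyMeasurable ?_
        refine Filter.Eventually.of_forall fun x => ?_
        rw [norm_mul, Complex.norm_I, mul_one, Complex.norm_real, Real.norm_eq_abs]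
      · refine hsq.congr (Filter.Eventually.of_forall fun x => ?_)
        simp only
        rw [norm_mul, Complex.norm_I, mul_one, Complex.norm_real, Real.norm_eq_abs, ← sq, sq_abs]
    -- open neighbourhood
    have hopen : {s : ℝ | t < -(C * s ^ 2)} ∈ 𝓝 s :=
      (isOpen_lt continuous_const (by fun_prop)).mem_nhds hts
    have hev : ∀ s' ∈ {s : ℝ | t < -(C * s ^ 2)},
        (∫ x, (((inner ℝ x u : ℝ) : ℂ) * I) *
        Complex.exp (((t * inner ℝ x e + s' * inner ℝ x u : ℝ) : ℂ) * I) ∂μ) =
        qv (derivative Q) t s' := by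
      intro s' hs'
      have hopen' : {s : ℝ | t < -(C * s ^ 2)} ∈ 𝓝 s' :=
        (isOpen_lt continuous_const (by fun_prop)).mem_nhds hs'
      have h1 := hd1 s'
      have h2 := hasDerivAt_qv Q t s'
      have h3 : (fun s => phi μ e u t s) =ᶠ[𝓝 s'] fun s => qv Q t s := by
        filter_upwards [hopen'] with s'' hs''
        exact hreg t s'' ht hs''
      exact h1.unique (h2.congr_of_eventuallyEq h3)
    have h4 := hasDerivAt_qv (derivative Q) t s
    have h5 : (fun s : ℝ => ∫ x, (((inner ℝ x u : ℝ) : ℂ) * I) *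
        Complex.exp (((t * inner ℝ x e + s * inner ℝ x u : ℝ) : ℂ) * I) ∂μ) =ᶠ[𝓝 s]
        fun s => qv (derivative Q) t s := by
      filter_upwards [hopen] with s' hs'
      exact hev s' hs'
    have h6 := hd2.unique (h4.congr_of_eventuallyEq h5)
    rw [hphi2, qv_neg, ← h6, ← integral_neg]
    congr 1
    ext x
    push_cast
    linear_combination ((((inner ℝ x u : ℝ) : ℂ) ^ 2 *
      Complex.exp (((t : ℂ) * ((inner ℝ x e : ℝ) : ℂ) + (s : ℂ) * ((inner ℝ x u : ℝ) : ℂ)) * I))) * Complex.I_sq

theorem inner_ae_zero (N : ℕ) : ∀ (Q : ℂ[X][X]), derivative^[N] Q = 0 →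
    ∀ (μ : Measure F) [IsFiniteMeasure μ] (e u : F) (c₀ C : ℝ), 0 < c₀ → 0 < C →
    Reg μ e u Q c₀ C → ∀ᵐ x ∂μ, (inner ℝ x u : ℝ) = 0 := by
  induction N with
  | zero =>
    intro Q hQ μ _ e u c₀ C hc₀ hC hreg
    have hQ0 : Q = 0 := by simpa using hQ
    have h1 : phi μ e u 0 0 = 0 := by
      have hc := (continuous_phi_fst μ e u 0).tendsto 0
      have h2 : Tendsto (fun t => phi μ e u t 0) (𝓝[<] 0) (𝓝 (phi μ e u 0 0)) :=
        hc.mono_left nhdsWithin_le_nhds
      have h3 : (fun t => phi μ e u t 0) =ᶠ[𝓝[<] 0] fun _ => 0 := by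
        have : Set.Ioo (-c₀) 0 ∈ 𝓝[<] (0 : ℝ) := Ioo_mem_nhdsLT (by linarith)
        filter_upwards [this] with t ht
        rw [hreg t 0 ht.1.le (by simpa using ht.2), hQ0]
        unfold qv
        simp
      exact tendsto_nhds_unique (h2.congr' h3) tendsto_const_nhds
    have h4 : phi μ e u 0 0 = (μ.real Set.univ : ℂ) := by
      unfold phi
      rw [zero_smul, zero_smul, add_zero, charFun_zero]
    rw [h4] at h1
    have h5 : μ.real Set.univ = 0 := by exact_mod_cast h1
    have h6 : μ = 0 := by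
      rw [← Measure.measure_univ_eq_zero]
      rwa [Measure.real, ENNReal.toReal_eq_zero_iff, or_iff_left (measure_ne_top μ _)] at h5
    rw [h6]
    simp
  | succ N ih =>
    intro Q hQ μ _ e u c₀ C hc₀ hC hreg
    obtain ⟨hfin, hreg2⟩ := reg_mu2 hreg hc₀ hC
    have hQ2 : derivative^[N] (-derivative (derivative Q)) = 0 := by
      rw [iterate_derivative_neg]
      have : derivative^[N] (derivative (derivative Q)) = derivative (derivative^[N + 1] Q) := by
        rw [← Function.iterate_succ_apply, ← Function.iterate_succ_apply,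
          ← Function.iterate_succ_apply' (f := ⇑derivative)]
      rw [this, hQ]
      simp
    have h1 := ih _ hQ2 (mu2 μ u) e u c₀ C hc₀ hC hreg2
    unfold mu2 at h1
    rw [ae_withDensity_iff (by fun_prop)] at h1
    filter_upwards [h1] with x hx
    by_contra hne
    apply hne
    apply hx
    rw [ne_eq, ENNReal.ofReal_eq_zero, not_le]
    positivity

end Pool.Agent.Lib.Pc23f48
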