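import Pool.Agent.Lib.Pc23f48.Rep

set_option autoImplicit false

open MeasureTheory Complex FourierTransform Real Filter Topology
open scoped ENNReal ContDiff BoundedContinuousFunction ComplexConjugate

namespace Pool.Agent.Lib.Pc23f48

variable {n : ℕ}

lemma continuous_gK (r : ℝ) {b : E n → ℂ} (hb : Continuous b) : Continuous (gK r b) :=
  (contDiff_G (ae_K' r) (integrableOn_K r hb)).continuous

lemma norm_gK_le (r : ℝ) (b : E n → ℂ) (x : E n) :
    ‖gK r b x‖ ≤ ∫ ζ in Metric.closedBall (0 : E n) r, ‖b ζ‖ := norm_G_le _ _ _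

lemma gK_integrand (r : ℝ) {b : E n → ℂ} (hb : Continuous b) (x : E n) :
    Integrable (fun ζ => b ζ * Complex.exp (Complex.I * ((inner ℝ x ζ : ℝ) : ℂ)))
      (volume.restrict (Metric.closedBall (0 : E n) r)) :=
  integrableOn_K r (hb.mul (by fun_prop))

lemma gK_add (r : ℝ) {b b' : E n → ℂ} (hb : Continuous b) (hb' : Continuous b') (x : E n) :
    gK r (fun ζ => b ζ + b' ζ) x = gK r b x + gK r b' x := by
  unfold gK G
  rw [← integral_add (gK_integrand r hb x) (gK_integrand r hb' x)]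
  congr 1
  ext ζ
  ring

lemma gK_smul (r : ℝ) (a : ℂ) (b : E n → ℂ) (x : E n) :
    gK r (fun ζ => a * b ζ) x = a * gK r b x := by
  unfold gK G
  rw [← integral_const_mul]
  congr 1
  ext ζ
  ring

noncomputable def gfun (r : ℝ) (ξ₀ : E n) (b : E n → ℂ) (c : ℂ) (x : E n) : ℂ :=
  Complex.exp (-(Complex.I * ((inner ℝ x ξ₀ : ℝ) : ℂ))) * gK r b x + c

lemma norm_exp_neg_I (a : ℝ) : ‖Complex.exp (-(Complex.I * (a : ℂ)))‖ = 1 := by
  have : -(Complex.I * (a : ℂ)) = Complex.I * ((-a : ℝ) : ℂ) := by push_cast; ring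
  rw [this, norm_exp_I]

lemma norm_gfun_le (r : ℝ) (ξ₀ : E n) (b : E n → ℂ) (c : ℂ) (x : E n) :
    ‖gfun r ξ₀ b c x‖ ≤ (∫ ζ in Metric.closedBall (0 : E n) r, ‖b ζ‖) + ‖c‖ := by
  unfold gfun
  refine (norm_add_le _ _).trans ?_
  rw [norm_mul, norm_exp_neg_I, one_mul]
  gcongr
  exact norm_gK_le r b x

lemma continuous_gfun (r : ℝ) (ξ₀ : E n) {b : E n → ℂ} (hb : Continuous b) (c : ℂ) :
    Continuous (gfun r ξ₀ b c) := by
  unfold gfun
  have := continuous_gK r hb
  fun_prop

/-- the linear map into bounded continuous functions -/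
noncomputable def Gam (r : ℝ) (ξ₀ : E n) : (C(E n, ℂ) × ℂ) →ₗ[ℝ] (E n →ᵇ ℝ) where
  toFun p := BoundedContinuousFunction.ofNormedAddCommGroup
    (fun x => (gfun r ξ₀ p.1 p.2 x).re)
    (Complex.continuous_re.comp (continuous_gfun r ξ₀ p.1.continuous p.2))
    ((∫ ζ in Metric.closedBall (0 : E n) r, ‖p.1 ζ‖) + ‖p.2‖)
    (fun x => (Complex.abs_re_le_norm _).trans (norm_gfun_le r ξ₀ p.1 p.2 x))
  map_add' p q := by
    ext x
    simp only [BoundedContinuousFunction.coe_ofNormedAddCommGroup,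
      BoundedContinuousFunction.coe_add, Pi.add_apply]
    rw [← Complex.add_re]
    congr 1
    unfold gfun
    have h := gK_add r p.1.continuous q.1.continuous x
    have h2 : gK r (⇑(p + q).1) x = gK r (fun ζ => p.1 ζ + q.1 ζ) x := rfl
    rw [h2, h, Prod.snd_add]
    ring
  map_smul' a p := by
    ext x
    simp only [BoundedContinuousFunction.coe_ofNormedAddCommGroup,
      BoundedContinuousFunction.coe_smul, RingHom.id_apply]
    rw [smul_eq_mul, ← Complex.re_ofReal_mul]
    congr 1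
    unfold gfun
    have h := gK_smul r (a : ℂ) p.1 x
    have h2 : gK r (⇑(a • p).1) x = gK r (fun ζ => (a : ℂ) * p.1 ζ) x := by
      congr 1
    rw [h2, h, Prod.smul_snd, Complex.real_smul]
    ring

lemma Gam_apply (r : ℝ) (ξ₀ : E n) (p : C(E n, ℂ) × ℂ) (x : E n) :
    Gam r ξ₀ p x = (gfun r ξ₀ p.1 p.2 x).re := rfl

/-- the functional -/
noncomputable def ell (r : ℝ) (P : E n → ℂ) (hP : Continuous P) : (C(E n, ℂ) × ℂ) →ₗ[ℝ] ℝ where
  toFun p := ((∫ ζ in Metric.closedBall (0 : E n) r, P ζ * p.1 ζ) + p.2).re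
  map_add' p q := by
    rw [← Complex.add_re]
    congr 1
    have h : (∫ ζ in Metric.closedBall (0 : E n) r, P ζ * (p + q).1 ζ) =
        (∫ ζ in Metric.closedBall (0 : E n) r, P ζ * p.1 ζ) +
        ∫ ζ in Metric.closedBall (0 : E n) r, P ζ * q.1 ζ := by
      have i1 : Integrable (fun ζ => P ζ * p.1 ζ)
        (volume.restrict (Metric.closedBall (0 : E n) r)) := integrableOn_K r (hP.mul p.1.continuous)
      have i2 : Integrable (fun ζ => P ζ * q.1 ζ)
        (volume.restrict (Metric.closedBall (0 : E n) r)) := integrableOn_K r (hP.mul q.1.continuous)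
      rw [← integral_add i1 i2]
      congr 1
      ext ζ
      simp only [Prod.fst_add, ContinuousMap.add_apply]
      ring
    rw [h, Prod.snd_add]
    ring
  map_smul' a p := by
    rw [RingHom.id_apply, smul_eq_mul, ← Complex.re_ofReal_mul]
    congr 1
    have h : (∫ ζ in Metric.closedBall (0 : E n) r, P ζ * (a • p).1 ζ) =
        (a : ℂ) * ∫ ζ in Metric.closedBall (0 : E n) r, P ζ * p.1 ζ := by
      rw [← integral_const_mul]
      congr 1
      ext ζ
      simp only [Prod.smul_fst, ContinuousMap.smul_apply, Complex.real_smul]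
      ring
    rw [h, Prod.smul_snd, Complex.real_smul]
    ring

lemma ell_apply (r : ℝ) (P : E n → ℂ) (hP : Continuous P) (p : C(E n, ℂ) × ℂ) :
    ell r P hP p = ((∫ ζ in Metric.closedBall (0 : E n) r, P ζ * p.1 ζ) + p.2).re := rfl

lemma tendsto_gK (r : ℝ) (b : E n → ℂ) [NeZero n] : Tendsto (gK r b) (cocompact (E n)) (𝓝 0) := by
  have h := tendsto_integral_exp_inner_smul_cocompact
    (f := (Metric.closedBall (0 : E n) r).indicator b)
  have hc : Tendsto (fun x : E n => (-(1 / (2 * π)) : ℝ) • x) (cocompact (E n))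
      (cocompact (E n)) := by
    have hne : (-(1 / (2 * π)) : ℝ) ≠ 0 := by
      have := Real.pi_pos
      exact neg_ne_zero.2 (by positivity)
    exact (Homeomorph.smulOfNeZero _ hne).isClosedEmbedding.tendsto_cocompact
  have h2 := h.comp hc
  refine h2.congr ?_
  intro x
  simp only [Function.comp_apply]
  unfold gK G
  rw [← integral_indicator measurableSet_closedBall]
  congr 1
  ext v
  by_cases hv : v ∈ Metric.closedBall (0 : E n) r
  · rw [Set.indicator_of_mem hv, Set.indicator_of_mem hv, Circle.smul_def, smul_eq_mul, mul_comm,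
      Real.fourierChar_apply]
    congr 2
    rw [inner_smul_right, real_inner_comm]
    push_cast
    have : (π : ℂ) ≠ 0 := by exact_mod_cast Real.pi_ne_zero
    field_simp
  · rw [Set.indicator_of_notMem hv, Set.indicator_of_notMem hv, smul_zero]

theorem exists_repr [NeZero n] {τ : MvPolynomial (Fin n) ℂ} {r : ℝ} (hr : 0 < r) {ξ₀ : E n}
    (hξ : ‖ξ₀‖ ≤ r) (hne : symb τ ξ₀ ≠ 0)
    (hnorm : opNorm τ (Metric.closedBall 0 r) ≤ ‖symb τ ξ₀‖ₑ) :
    ∃ μ : Measure (E n), IsFiniteMeasure μ ∧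
      ∀ ζ ∈ Metric.closedBall (0 : E n) r, charFun μ (ζ - ξ₀) = symb τ ζ / symb τ ξ₀ := by
  have hP : Continuous fun ζ : E n => symb τ ζ / symb τ ξ₀ := (continuous_symb τ).div_const _
  obtain ⟨μ, hμ1, hμ2⟩ := exists_measure (Gam r ξ₀) (ell r _ hP) (by
    rintro ⟨b, c⟩
    rw [ell_apply]
    apply re_bound hξ hne hnorm b.continuous c (fun x => norm_gfun_le r ξ₀ b c x)
    intro x
    exact le_ciSup (bddAbove_bcf (Gam r ξ₀ (b, c))) x)
  have hfin : IsFiniteMeasure μ := ⟨hμ1.trans_lt ENNReal.one_lt_top⟩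
  refine ⟨μ, hfin, ?_⟩
  -- vanishing at infinity
  have hzero : ∀ b : C(E n, ℂ), Tendsto (Gam r ξ₀ (b, 0)) (cocompact (E n)) (𝓝 0) := by
    intro b
    have h1 : Tendsto (fun x => ‖gK r b x‖) (cocompact (E n)) (𝓝 0) := by
      simpa using (tendsto_gK r b).norm
    refine squeeze_zero_norm ?_ h1
    intro x
    rw [Gam_apply, Real.norm_eq_abs]
    refine (Complex.abs_re_le_norm _).trans ?_
    simp only [gfun, add_zero]
    rw [norm_mul, norm_exp_neg_I, one_mul]
  have hre : ∀ b : C(E n, ℂ), (∫ x, gfun r ξ₀ b 0 x ∂μ).re =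
      (∫ ζ in Metric.closedBall (0 : E n) r, (symb τ ζ / symb τ ξ₀) * b ζ).re := by
    intro b
    have h1 := hμ2 (b, 0) (hzero b)
    rw [ell_apply] at h1
    simp only [Gam_apply, add_zero] at h1
    rw [← h1]
    have hi : Integrable (gfun r ξ₀ b 0) μ := by
      refine Integrable.mono' (integrable_const ((∫ ζ in Metric.closedBall (0 : E n) r, ‖b ζ‖) +
        ‖(0:ℂ)‖)) (continuous_gfun r ξ₀ b.continuous 0).aestronglyMeasurable ?_
      exact Filter.Eventually.of_forall (fun x => norm_gfun_le r ξ₀ b 0 x)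
    exact (integral_re hi).symm
  have heq : ∀ b : C(E n, ℂ), ∫ x, gfun r ξ₀ b 0 x ∂μ =
      ∫ ζ in Metric.closedBall (0 : E n) r, (symb τ ζ / symb τ ξ₀) * b ζ := by
    intro b
    apply Complex.ext (hre b)
    have h1 := hre (⟨fun ζ => (-Complex.I) * b ζ, by fun_prop⟩ : C(E n, ℂ))
    have e1 : ∫ x, gfun r ξ₀ (⟨fun ζ => (-Complex.I) * b ζ, by fun_prop⟩ : C(E n, ℂ)) 0 x ∂μ =
        (-Complex.I) * ∫ x, gfun r ξ₀ b 0 x ∂μ := by
      rw [← integral_const_mul]
      congr 1
      ext x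
      unfold gfun
      rw [ContinuousMap.coe_mk, gK_smul]
      ring
    have e2 : ∫ ζ in Metric.closedBall (0 : E n) r, (symb τ ζ / symb τ ξ₀) *
        (⟨fun ζ => (-Complex.I) * b ζ, by fun_prop⟩ : C(E n, ℂ)) ζ =
        (-Complex.I) * ∫ ζ in Metric.closedBall (0 : E n) r, (symb τ ζ / symb τ ξ₀) * b ζ := by
      rw [← integral_const_mul]
      congr 1
      ext ζ
      rw [ContinuousMap.coe_mk]
      ring
    rw [e1, e2] at h1
    simpa using h1
  -- Fubini
  have hfub : ∀ b : C(E n, ℂ), ∫ x, gfun r ξ₀ b 0 x ∂μ =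
      ∫ ζ in Metric.closedBall (0 : E n) r, charFun μ (ζ - ξ₀) * b ζ := by
    intro b
    have h1 : ∀ x, gfun r ξ₀ b 0 x = ∫ ζ in Metric.closedBall (0 : E n) r,
        b ζ * Complex.exp (((inner ℝ x (ζ - ξ₀) : ℝ) : ℂ) * Complex.I) := by
      intro x
      unfold gfun gK G
      rw [add_zero, ← integral_const_mul]
      congr 1
      ext ζ
      rw [inner_sub_right, Complex.ofReal_sub, sub_mul, sub_eq_add_neg, Complex.exp_add]
      have e3 : -(((inner ℝ x ξ₀ : ℝ) : ℂ) * Complex.I) = -(Complex.I * ((inner ℝ x ξ₀ : ℝ) : ℂ)) := by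
        ring
      rw [e3, mul_comm (((inner ℝ x ζ : ℝ) : ℂ)) Complex.I]
      ring
    simp_rw [h1]
    rw [integral_integral_swap]
    · congr 1
      ext ζ
      rw [integral_const_mul, charFun_apply, mul_comm]
    · have hi : Integrable (fun p : E n × E n => (1 : ℂ) * b p.2)
          (μ.prod (volume.restrict (Metric.closedBall (0 : E n) r))) :=
        (integrable_const (1 : ℂ)).mul_prod (integrableOn_K r b.continuous)
      refine Integrable.mono' hi.norm ?_ ?_
      · have : Continuous (Function.uncurry fun x ζ : E n =>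
            b ζ * Complex.exp (((inner ℝ x (ζ - ξ₀) : ℝ) : ℂ) * Complex.I)) := by
          unfold Function.uncurry
          fun_prop
        exact this.aestronglyMeasurable
      · filter_upwards with p
        simp only [Function.uncurry, one_mul]
        rw [norm_mul, Complex.norm_exp_ofReal_mul_I, mul_one]
  have hcc : Continuous fun ζ : E n => charFun μ (ζ - ξ₀) := by
    have : Continuous (charFun μ) := by fun_prop
    exact this.comp (by fun_prop)
  obtain ⟨w, hw⟩ : ∃ w : E n → ℂ, w = fun ζ => charFun μ (ζ - ξ₀) - symb τ ζ / symb τ ξ₀ := ⟨_, rfl⟩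
  have hwc : Continuous w := by rw [hw]; exact hcc.sub hP
  have hz : ∀ b : C(E n, ℂ), ∫ ζ in Metric.closedBall (0 : E n) r, w ζ * b ζ = 0 := by
    intro b
    have h1 := (hfub b).symm.trans (heq b)
    have i1 : Integrable (fun ζ => charFun μ (ζ - ξ₀) * b ζ)
      (volume.restrict (Metric.closedBall (0 : E n) r)) := integrableOn_K r (hcc.mul b.continuous)
    have i2 : Integrable (fun ζ => symb τ ζ / symb τ ξ₀ * b ζ)
      (volume.restrict (Metric.closedBall (0 : E n) r)) := integrableOn_K r (hP.mul b.continuous)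
    rw [← sub_eq_zero, ← integral_sub i1 i2] at h1
    rw [← h1]
    congr 1
    ext ζ
    rw [hw]
    ring
  have h2 := hz ⟨fun ζ => conj (w ζ), by fun_prop⟩
  have h3 : ∫ ζ in Metric.closedBall (0 : E n) r, ‖w ζ‖ ^ 2 = 0 := by
    have e : ∀ ζ : E n, w ζ * (⟨fun ζ => conj (w ζ), by fun_prop⟩ : C(E n, ℂ)) ζ =
        ((‖w ζ‖ ^ 2 : ℝ) : ℂ) := by
      intro ζ
      rw [ContinuousMap.coe_mk, Complex.mul_conj, Complex.normSq_eq_norm_sq]
    simp_rw [e] at h2
    rw [integral_complex_ofReal] at h2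
    exact_mod_cast h2
  have h4 : (fun ζ => ‖w ζ‖ ^ 2) =ᵐ[volume.restrict (Metric.closedBall (0 : E n) r)] 0 := by
    refine (integral_eq_zero_iff_of_nonneg (fun ζ => by positivity) ?_).1 h3
    exact (by fun_prop : Continuous fun ζ => ‖w ζ‖ ^ 2).continuousOn.integrableOn_compact
      (isCompact_closedBall 0 r)
  have h5 := Measure.eqOn_of_ae_eq h4 (by fun_prop) (by fun_prop)
    (by rw [interior_closedBall _ hr.ne', closure_ball _ hr.ne'])
  intro ζ hζ
  have h6 := h5 hζ
  simp only [Pi.zero_apply] at h6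
  have h7 : w ζ = 0 := by simpa using h6
  rw [hw] at h7
  exact sub_eq_zero.1 h7

end Pool.Agent.Lib.Pc23f48
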