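import Mathlib

set_option autoImplicit false
set_option linter.unusedSectionVars false

open MeasureTheory Complex Real Filter Topology Polynomial
open scoped ENNReal ComplexConjugate

namespace Pool.Agent.Lib.Pc23f48

/-- value of a bivariate polynomial -/
noncomputable def qv (Q : ℂ[X][X]) (t s : ℝ) : ℂ := evalEval (t : ℂ) (s : ℂ) Q

lemma qv_eq_sum (Q : ℂ[X][X]) (t s : ℝ) :
    qv Q t s = ∑ j ∈ Finset.range (Q.natDegree + 1), (Q.coeff j).eval (t : ℂ) * (s : ℂ) ^ j := by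
  unfold qv evalEval
  rw [Polynomial.eval_eq_sum_range (p := Q), Polynomial.eval_finsetSum]
  refine Finset.sum_congr rfl fun j _ => ?_
  simp

lemma pow_bound (j : ℕ) {s : ℝ} (hs : |s| ≤ 1) :
    ‖2 * (0 : ℂ) ^ j - (s : ℂ) ^ j - (-(s : ℂ)) ^ j‖ ≤ 2 * s ^ 2 := by
  match j with
  | 0 =>
    simp
    ring_nf
    simp
    positivity
  | 1 =>
    simp
    positivity
  | j + 2 =>
    have h1 : ‖(s : ℂ) ^ (j + 2)‖ ≤ s ^ 2 := by
      rw [norm_pow, Complex.norm_real, Real.norm_eq_abs, pow_add, sq_abs]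
      have : |s| ^ j ≤ 1 := pow_le_one₀ (abs_nonneg _) hs
      nlinarith [sq_nonneg s]
    have h2 : ‖(-(s : ℂ)) ^ (j + 2)‖ ≤ s ^ 2 := by
      rw [norm_pow, norm_neg, ← norm_pow]; exact h1
    rw [zero_pow (by omega), mul_zero, zero_sub]
    calc ‖-(s : ℂ) ^ (j + 2) - (-(s : ℂ)) ^ (j + 2)‖
        ≤ ‖-(s : ℂ) ^ (j + 2)‖ + ‖(-(s : ℂ)) ^ (j + 2)‖ := norm_sub_le _ _
      _ ≤ 2 * s ^ 2 := by rw [norm_neg]; linarith

lemma second_diff_bound (Q : ℂ[X][X]) (c : ℝ) :
    ∃ B : ℝ, 0 ≤ B ∧ ∀ t s : ℝ, |t| ≤ c → |s| ≤ 1 →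
      ‖2 * qv Q t 0 - qv Q t s - qv Q t (-s)‖ ≤ B * s ^ 2 := by
  have hcont : Continuous fun t : ℝ => ∑ j ∈ Finset.range (Q.natDegree + 1),
      ‖(Q.coeff j).eval (t : ℂ)‖ := by fun_prop
  obtain ⟨B, hB⟩ := (isCompact_Icc (a := -c) (b := c)).exists_bound_of_continuousOn
    hcont.continuousOn
  refine ⟨2 * |B|, by positivity, ?_⟩
  intro t s ht hs
  have h1 : 2 * qv Q t 0 - qv Q t s - qv Q t (-s) = ∑ j ∈ Finset.range (Q.natDegree + 1),
      (Q.coeff j).eval (t : ℂ) * (2 * (0 : ℂ) ^ j - (s : ℂ) ^ j - (-(s : ℂ)) ^ j) := by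
    rw [qv_eq_sum, qv_eq_sum, qv_eq_sum, Finset.mul_sum, ← Finset.sum_sub_distrib,
      ← Finset.sum_sub_distrib]
    refine Finset.sum_congr rfl fun j _ => ?_
    push_cast
    ring
  rw [h1]
  calc ‖∑ j ∈ Finset.range (Q.natDegree + 1),
      (Q.coeff j).eval (t : ℂ) * (2 * (0 : ℂ) ^ j - (s : ℂ) ^ j - (-(s : ℂ)) ^ j)‖
      ≤ ∑ j ∈ Finset.range (Q.natDegree + 1), ‖(Q.coeff j).eval (t : ℂ)‖ * (2 * s ^ 2) := by
        refine (norm_sum_le _ _).trans (Finset.sum_le_sum fun j _ => ?_)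
        rw [norm_mul]
        gcongr
        exact pow_bound j hs
    _ = (∑ j ∈ Finset.range (Q.natDegree + 1), ‖(Q.coeff j).eval (t : ℂ)‖) * (2 * s ^ 2) := by
        rw [Finset.sum_mul]
    _ ≤ |B| * (2 * s ^ 2) := by
        gcongr
        have h2 := hB t (by rwa [Set.mem_Icc, ← abs_le])
        rw [Real.norm_eq_abs] at h2
        exact (le_abs_self _).trans (h2.trans (le_abs_self _))
    _ = 2 * |B| * s ^ 2 := by ring

variable {F : Type*} [NormedAddCommGroup F] [InnerProductSpace ℝ F] [MeasurableSpace F]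
  [BorelSpace F] [SecondCountableTopology F]

/-- two dimensional slice of the characteristic function -/
noncomputable def phi (μ : Measure F) (e u : F) (t s : ℝ) : ℂ := charFun μ (t • e + s • u)

lemma phi_eq (μ : Measure F) (e u : F) (t s : ℝ) :
    phi μ e u t s = ∫ x, Complex.exp (((t * inner ℝ x e + s * inner ℝ x u : ℝ) : ℂ) * I) ∂μ := by
  unfold phi
  rw [charFun_apply]
  congr 1
  ext x
  rw [inner_add_right, inner_smul_right, inner_smul_right]

lemma phi_neg (μ : Measure F) (e u : F) (t s : ℝ) :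
    phi μ e u (-t) (-s) = conj (phi μ e u t s) := by
  unfold phi
  rw [← charFun_neg]
  congr 1
  rw [neg_smul, neg_smul, neg_add]

lemma continuous_phi (μ : Measure F) [IsFiniteMeasure μ] (e u : F) (t : ℝ) :
    Continuous fun s => phi μ e u t s := by
  unfold phi
  have : Continuous (charFun μ) := by fun_prop
  exact this.comp (by fun_prop)

lemma continuous_phi_fst (μ : Measure F) [IsFiniteMeasure μ] (e u : F) (s : ℝ) :
    Continuous fun t => phi μ e u t s := by
  unfold phi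
  have : Continuous (charFun μ) := by fun_prop
  exact this.comp (by fun_prop)

/-- the weight -/
noncomputable def W (u : F) (h : ℝ) (x : F) : ℝ := 2 - 2 * Real.cos (h * inner ℝ x u)

lemma W_nonneg (u : F) (h : ℝ) (x : F) : 0 ≤ W u h x := by
  unfold W
  linarith [Real.cos_le_one (h * inner ℝ x u)]

lemma continuous_W (u : F) (h : ℝ) : Continuous (W u h) := by
  unfold W
  fun_prop

lemma W_le (u : F) (h : ℝ) (x : F) : W u h x ≤ 4 := by
  unfold W
  linarith [Real.neg_one_le_cos (h * inner ℝ x u)]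

lemma integrable_exp (μ : Measure F) [IsFiniteMeasure μ] {g : F → ℝ} (hg : Continuous g) :
    Integrable (fun x => Complex.exp ((g x : ℂ) * I)) μ := by
  refine Integrable.mono' (integrable_const (1 : ℝ)) ?_ ?_
  · exact (by fun_prop : Continuous fun x => Complex.exp ((g x : ℂ) * I)).aestronglyMeasurable
  · exact Filter.Eventually.of_forall fun x => (Complex.norm_exp_ofReal_mul_I _).le

lemma integral_exp_W (μ : Measure F) [IsFiniteMeasure μ] (e u : F) (t h : ℝ) :
    ∫ x, Complex.exp (((t * inner ℝ x e : ℝ) : ℂ) * I) * (W u h x : ℂ) ∂μ =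
      2 * phi μ e u t 0 - phi μ e u t h - phi μ e u t (-h) := by
  rw [phi_eq, phi_eq, phi_eq]
  have i0 : Integrable (fun x : F => Complex.exp (((t * inner ℝ x e + 0 * inner ℝ x u : ℝ) : ℂ) * I))
    μ := integrable_exp μ (by fun_prop)
  have i1 : Integrable (fun x : F => Complex.exp (((t * inner ℝ x e + h * inner ℝ x u : ℝ) : ℂ) * I))
    μ := integrable_exp μ (by fun_prop)
  have i2 : Integrable (fun x : F => Complex.exp (((t * inner ℝ x e + -h * inner ℝ x u : ℝ) : ℂ) * I))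
    μ := integrable_exp μ (by fun_prop)
  have i3 : Integrable (fun x : F =>
      2 * Complex.exp (((t * inner ℝ x e + 0 * inner ℝ x u : ℝ) : ℂ) * I) -
      Complex.exp (((t * inner ℝ x e + h * inner ℝ x u : ℝ) : ℂ) * I)) μ := (i0.const_mul 2).sub i1
  rw [← integral_const_mul, ← integral_sub (i0.const_mul 2) i1, ← integral_sub i3 i2]
  congr 1
  ext x
  have e1 : (W u h x : ℂ) = 2 - (Complex.exp (((h * inner ℝ x u : ℝ) : ℂ) * I) +
      Complex.exp (((-h * inner ℝ x u : ℝ) : ℂ) * I)) := by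
    unfold W
    push_cast
    rw [Complex.cos]
    have : -((h : ℂ) * ((inner ℝ x u : ℝ) : ℂ)) * I = -(h : ℂ) * ((inner ℝ x u : ℝ) : ℂ) * I := by
      ring
    rw [this]
    ring
  have e2 : ∀ a b : ℝ, Complex.exp (((a + b : ℝ) : ℂ) * I) =
      Complex.exp ((a : ℂ) * I) * Complex.exp ((b : ℂ) * I) := by
    intro a b
    rw [← Complex.exp_add]
    congr 1
    push_cast
    ring
  rw [e1, e2, e2, e2]
  simp only [zero_mul, Complex.ofReal_zero, Complex.exp_zero, mul_one]
  ring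

/-- Fejer type kernel as a square -/
noncomputable def eta (N : ℕ) (δ y : ℝ) : ℝ :=
  ‖∑ j ∈ Finset.range N, Complex.exp (((j * δ * y : ℝ) : ℂ) * I)‖ ^ 2 / N ^ 2

lemma eta_expand (N : ℕ) (δ y : ℝ) :
    ((eta N δ y : ℝ) : ℂ) = (∑ j ∈ Finset.range N, ∑ k ∈ Finset.range N,
      Complex.exp (((((j : ℝ) - k) * δ * y : ℝ) : ℂ) * I)) / N ^ 2 := by
  unfold eta
  push_cast
  congr 1
  rw [← Complex.ofReal_pow, ← Complex.normSq_eq_norm_sq, ← Complex.mul_conj, map_sum,
    Finset.sum_mul_sum]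
  refine Finset.sum_congr rfl fun j _ => Finset.sum_congr rfl fun k _ => ?_
  rw [← Complex.exp_conj, ← Complex.exp_add]
  congr 1
  simp only [map_mul, Complex.conj_ofReal, Complex.conj_I]
  simp
  ring

lemma eta_lower {N : ℕ} (hN : 0 < N) {δ y : ℝ} (hδ : 0 ≤ δ) (hy : (N : ℝ) * δ * |y| ≤ 1) :
    1 / 4 ≤ eta N δ y := by
  unfold eta
  have hN' : (0 : ℝ) < N := by exact_mod_cast hN
  have h1 : (N : ℝ) / 2 ≤ ‖∑ j ∈ Finset.range N, Complex.exp (((j * δ * y : ℝ) : ℂ) * I)‖ := by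
    refine le_trans ?_ (Complex.re_le_norm _)
    rw [Complex.re_sum]
    have h2 : ∀ j ∈ Finset.range N, (1 : ℝ) / 2 ≤
        (Complex.exp (((j * δ * y : ℝ) : ℂ) * I)).re := by
      intro j hj
      rw [Complex.exp_ofReal_mul_I_re]
      have hj' : (j : ℝ) ≤ N := by exact_mod_cast (Finset.mem_range.1 hj).le
      have h3 : |(j : ℝ) * δ * y| ≤ 1 := by
        rw [abs_mul, abs_of_nonneg (by positivity : (0:ℝ) ≤ j * δ)]
        refine le_trans ?_ hy
        gcongr
      have h4 := Real.one_sub_sq_div_two_le_cos (x := (j : ℝ) * δ * y)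
      have h5 : ((j : ℝ) * δ * y) ^ 2 ≤ 1 := by
        rw [← sq_abs]
        exact pow_le_one₀ (abs_nonneg _) h3
      linarith
    calc (N : ℝ) / 2 = ∑ j ∈ Finset.range N, (1 : ℝ) / 2 := by
          rw [Finset.sum_const, Finset.card_range, nsmul_eq_mul]; ring
      _ ≤ _ := Finset.sum_le_sum h2
  rw [le_div_iff₀ (by positivity)]
  have h6 : ((N : ℝ) / 2) ^ 2 ≤
      ‖∑ j ∈ Finset.range N, Complex.exp (((j * δ * y : ℝ) : ℂ) * I)‖ ^ 2 :=
    pow_le_pow_left₀ (by positivity) h1 2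
  linarith

lemma eta_nonneg (N : ℕ) (δ y : ℝ) : 0 ≤ eta N δ y := by
  unfold eta; positivity

lemma continuous_eta (N : ℕ) (δ : ℝ) : Continuous (eta N δ) := by
  unfold eta
  fun_prop

lemma integral_eta_W (μ : Measure F) [IsFiniteMeasure μ] (e u : F) (N : ℕ) (δ h : ℝ) :
    ((∫ x, eta N δ (inner ℝ x e) * W u h x ∂μ : ℝ) : ℂ) =
      (∑ j ∈ Finset.range N, ∑ k ∈ Finset.range N,
        (2 * phi μ e u (((j : ℝ) - k) * δ) 0 - phi μ e u (((j : ℝ) - k) * δ) h -
          phi μ e u (((j : ℝ) - k) * δ) (-h))) / N ^ 2 := by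
  rw [← integral_complex_ofReal]
  have h1 : ∀ x : F, ((eta N δ (inner ℝ x e) * W u h x : ℝ) : ℂ) =
      ∑ j ∈ Finset.range N, ∑ k ∈ Finset.range N,
      (Complex.exp (((((j : ℝ) - k) * δ * inner ℝ x e : ℝ) : ℂ) * I) * (W u h x : ℂ)) / N ^ 2 := by
    intro x
    rw [Complex.ofReal_mul, eta_expand, div_mul_eq_mul_div, Finset.sum_mul, Finset.sum_div]
    refine Finset.sum_congr rfl fun j _ => ?_
    rw [Finset.sum_mul, Finset.sum_div]
  simp_rw [h1]
  have hint : ∀ t : ℝ, Integrable (fun x : F =>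
      Complex.exp (((t * inner ℝ x e : ℝ) : ℂ) * I) * (W u h x : ℂ)) μ := by
    intro t
    refine Integrable.mono' (integrable_const (4 : ℝ)) ?_ ?_
    · have := continuous_W u h
      exact (by fun_prop : Continuous fun x : F =>
        Complex.exp (((t * inner ℝ x e : ℝ) : ℂ) * I) * (W u h x : ℂ)).aestronglyMeasurable
    · refine Filter.Eventually.of_forall fun x => ?_
      rw [norm_mul, Complex.norm_exp_ofReal_mul_I, one_mul, Complex.norm_real, Real.norm_eq_abs,
        abs_of_nonneg (W_nonneg u h x)]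
      exact W_le u h x
  rw [integral_finsetSum]
  · rw [Finset.sum_div]
    refine Finset.sum_congr rfl fun j _ => ?_
    rw [integral_finsetSum]
    · rw [Finset.sum_div]
      refine Finset.sum_congr rfl fun k _ => ?_
      rw [integral_div, integral_exp_W]
    · intro k _
      exact (hint _).div_const _
  · intro j _
    apply integrable_finsetSum
    intro k _
    exact (hint _).div_const _

end Pool.Agent.Lib.Pc23f48
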