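import Pool.Agent.Lib.Pc23f48.Moment

set_option autoImplicit false
set_option linter.unusedSectionVars false

open MeasureTheory Complex Real Filter Topology Polynomial
open scoped ENNReal ComplexConjugate

namespace Pool.Agent.Lib.Pc23f48

variable {F : Type*} [NormedAddCommGroup F] [InnerProductSpace ℝ F] [MeasurableSpace F]
  [BorelSpace F] [SecondCountableTopology F]

/-- second difference of the slice -/
noncomputable def T (μ : Measure F) (e u : F) (t h : ℝ) : ℂ :=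
  2 * phi μ e u t 0 - phi μ e u t h - phi μ e u t (-h)

/-- the slice of the characteristic function is a polynomial on a one-sided region -/
def Reg (μ : Measure F) (e u : F) (Q : ℂ[X][X]) (c₀ C : ℝ) : Prop :=
  ∀ t s : ℝ, -c₀ ≤ t → t < -(C * s ^ 2) → phi μ e u t s = qv Q t s

lemma T_bound_neg {μ : Measure F} {e u : F} {Q : ℂ[X][X]} {c₀ C B : ℝ}
    (hreg : Reg μ e u Q c₀ C) (hC : 0 ≤ C)
    (hB : ∀ t s : ℝ, |t| ≤ c₀ → |s| ≤ 1 →
      ‖2 * qv Q t 0 - qv Q t s - qv Q t (-s)‖ ≤ B * s ^ 2)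
    {t h : ℝ} (hh : |h| ≤ 1) (ht : t < -(C * h ^ 2)) (htc : -c₀ ≤ t) :
    ‖T μ e u t h‖ ≤ B * h ^ 2 := by
  unfold T
  have hCh : 0 ≤ C * h ^ 2 := by positivity
  rw [hreg t 0 htc (by nlinarith), hreg t h htc ht, hreg t (-h) htc (by rwa [neg_sq])]
  apply hB t h _ hh
  rw [abs_le]
  constructor <;> linarith

lemma T_neg (μ : Measure F) (e u : F) (t h : ℝ) : T μ e u (-t) h = conj (T μ e u t h) := by
  unfold T
  have h1 := phi_neg μ e u t 0
  have h2 := phi_neg μ e u t (-h)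
  have h3 := phi_neg μ e u t h
  rw [neg_zero] at h1
  rw [neg_neg] at h2
  rw [h1, h2, h3]
  simp only [map_sub, map_mul, map_ofNat]
  ring

lemma T_bound {μ : Measure F} {e u : F} {Q : ℂ[X][X]} {c₀ C B : ℝ}
    (hreg : Reg μ e u Q c₀ C) (hC : 0 ≤ C)
    (hB : ∀ t s : ℝ, |t| ≤ c₀ → |s| ≤ 1 →
      ‖2 * qv Q t 0 - qv Q t s - qv Q t (-s)‖ ≤ B * s ^ 2)
    {t h : ℝ} (hh : |h| ≤ 1) (ht : C * h ^ 2 < |t|) (htc : |t| ≤ c₀) :
    ‖T μ e u t h‖ ≤ B * h ^ 2 := by
  rcases le_or_gt 0 t with h0 | h0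
  · rw [abs_of_nonneg h0] at ht htc
    have h1 := T_neg μ e u t h
    have h2 : ‖T μ e u t h‖ = ‖T μ e u (-t) h‖ := by rw [h1, RCLike.norm_conj]
    rw [h2]
    exact T_bound_neg hreg hC hB hh (by linarith) (by linarith)
  · rw [abs_of_neg h0] at ht htc
    exact T_bound_neg hreg hC hB hh (by linarith) (by linarith)

lemma integral_eta_W_le {μ : Measure F} [IsFiniteMeasure μ] {e u : F} {Q : ℂ[X][X]} {c₀ C B : ℝ}
    (hreg : Reg μ e u Q c₀ C) (hC : 0 ≤ C) (hB0 : 0 ≤ B)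
    (hB : ∀ t s : ℝ, |t| ≤ c₀ → |s| ≤ 1 →
      ‖2 * qv Q t 0 - qv Q t s - qv Q t (-s)‖ ≤ B * s ^ 2)
    {N : ℕ} (hN : 0 < N) {δ h : ℝ} (hδ : C * h ^ 2 < δ) (hNδ : N * δ ≤ c₀) (hh : |h| ≤ 1) :
    ∫ x, eta N δ (inner ℝ x e) * W u h x ∂μ ≤ ‖T μ e u 0 h‖ / N + B * h ^ 2 := by
  have hN' : (0 : ℝ) < N := by exact_mod_cast hN
  have hδ0 : 0 < δ := lt_of_le_of_lt (by positivity) hδ
  have h1 := integral_eta_W μ e u N δ h
  have h2 : ∫ x, eta N δ (inner ℝ x e) * W u h x ∂μ ≤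
      ‖(∑ j ∈ Finset.range N, ∑ k ∈ Finset.range N, T μ e u (((j : ℝ) - k) * δ) h) / N ^ 2‖ := by
    have h3 : ∫ x, eta N δ (inner ℝ x e) * W u h x ∂μ ≤
      ‖((∫ x, eta N δ (inner ℝ x e) * W u h x ∂μ : ℝ) : ℂ)‖ := by
      rw [Complex.norm_real]; exact le_abs_self _
    rw [h1] at h3
    exact h3
  refine h2.trans ?_
  have hjk : ∀ j ∈ Finset.range N, ∀ k ∈ Finset.range N,
      ‖T μ e u (((j : ℝ) - k) * δ) h‖ ≤ (if j = k then ‖T μ e u 0 h‖ else 0) + B * h ^ 2 := by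
    intro j hj k hk
    rw [Finset.mem_range] at hj hk
    by_cases hjk : j = k
    · subst hjk
      simp only [sub_self, zero_mul, if_true]
      have : 0 ≤ B * h ^ 2 := by positivity
      linarith
    · rw [if_neg hjk, zero_add]
      have hne : (j : ℤ) - k ≠ 0 := by omega
      have h4 : (1 : ℝ) ≤ |(j : ℝ) - k| := by
        have h5 : (1 : ℤ) ≤ |(j : ℤ) - k| := Int.one_le_abs hne
        exact_mod_cast h5
      have h6 : |(j : ℝ) - k| ≤ N := by
        have h7 : |(j : ℤ) - k| ≤ N := by rw [abs_le]; constructor <;> omega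
        exact_mod_cast h7
      apply T_bound hreg hC hB hh
      · rw [abs_mul, abs_of_pos hδ0]
        nlinarith
      · rw [abs_mul, abs_of_pos hδ0]
        nlinarith
  rw [norm_div, norm_pow, Complex.norm_natCast, div_le_iff₀ (by positivity)]
  calc ‖∑ j ∈ Finset.range N, ∑ k ∈ Finset.range N, T μ e u (((j : ℝ) - k) * δ) h‖
      ≤ ∑ j ∈ Finset.range N, ∑ k ∈ Finset.range N,
          ((if j = k then ‖T μ e u 0 h‖ else 0) + B * h ^ 2) := by
        refine (norm_sum_le _ _).trans (Finset.sum_le_sum fun j hj => ?_)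
        refine (norm_sum_le _ _).trans (Finset.sum_le_sum fun k hk => hjk j hj k hk)
    _ = N * ‖T μ e u 0 h‖ + N ^ 2 * (B * h ^ 2) := by
        have h8 : ∀ j ∈ Finset.range N, ∑ k ∈ Finset.range N,
            ((if j = k then ‖T μ e u 0 h‖ else 0) + B * h ^ 2) =
            ‖T μ e u 0 h‖ + N * (B * h ^ 2) := by
          intro j hj
          rw [Finset.sum_add_distrib, Finset.sum_ite_eq, if_pos hj, Finset.sum_const,
            Finset.card_range, nsmul_eq_mul]
        rw [Finset.sum_congr rfl h8, Finset.sum_const, Finset.card_range, nsmul_eq_mul]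
        ring
    _ = (‖T μ e u 0 h‖ / N + B * h ^ 2) * N ^ 2 := by
        field_simp

/-- mass in a slab -/
lemma slab_bound {μ : Measure F} [IsFiniteMeasure μ] {e u : F} {Q : ℂ[X][X]} {c₀ C B : ℝ}
    (hreg : Reg μ e u Q c₀ C) (hC : 0 < C) (hB0 : 0 ≤ B)
    (hB : ∀ t s : ℝ, |t| ≤ c₀ → |s| ≤ 1 →
      ‖2 * qv Q t 0 - qv Q t s - qv Q t (-s)‖ ≤ B * s ^ 2)
    {c : ℝ} (hc : 0 < c) (hcc : c ≤ c₀) {N : ℕ} (hN : 0 < N) {h : ℝ}
    (hh : h ^ 2 = c / (2 * C * N)) (hh1 : |h| ≤ 1) :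
    ∫ x in {x : F | |(inner ℝ x e : ℝ)| ≤ 1 / c}, W u h x / h ^ 2 ∂μ ≤
      4 * (‖T μ e u 0 h‖ * (2 * C / c) + B) := by
  have hN' : (0 : ℝ) < N := by exact_mod_cast hN
  have hh0 : 0 < h ^ 2 := by rw [hh]; positivity
  obtain ⟨δ, hδd⟩ : ∃ δ : ℝ, δ = c / N := ⟨_, rfl⟩
  have hδ0 : 0 < δ := by rw [hδd]; positivity
  have hNδ : N * δ = c := by rw [hδd]; field_simp
  have hδ : C * h ^ 2 < δ := by
    have : C * h ^ 2 = δ / 2 := by rw [hh, hδd]; field_simp
    rw [this]; linarith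
  have h1 := integral_eta_W_le hreg hC.le hB0 hB hN hδ (by rw [hNδ]; exact hcc) hh1
  have hmeas : MeasurableSet {x : F | |(inner ℝ x e : ℝ)| ≤ 1 / c} := by
    apply IsClosed.measurableSet
    exact isClosed_le (by fun_prop) continuous_const
  have hWi : Integrable (fun x => W u h x) μ := by
    refine Integrable.mono' (integrable_const (4 : ℝ)) (continuous_W u h).aestronglyMeasurable ?_
    refine Filter.Eventually.of_forall fun x => ?_
    rw [Real.norm_eq_abs, abs_of_nonneg (W_nonneg u h x)]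
    exact W_le u h x
  have hηi : Integrable (fun x => eta N δ (inner ℝ x e) * W u h x) μ := by
    have hc1 := continuous_eta N δ
    have hc2 := continuous_W u h
    refine Integrable.mono' (integrable_const (4 : ℝ)) (by fun_prop : Continuous fun x : F =>
      eta N δ (inner ℝ x e) * W u h x).aestronglyMeasurable ?_
    refine Filter.Eventually.of_forall fun x => ?_
    rw [Real.norm_eq_abs, abs_of_nonneg (mul_nonneg (eta_nonneg _ _ _) (W_nonneg u h x))]
    have h2 : eta N δ (inner ℝ x e) ≤ 1 := by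
      unfold eta
      rw [div_le_one (by positivity)]
      gcongr
      refine (norm_sum_le _ _).trans ?_
      simp_rw [Complex.norm_exp_ofReal_mul_I]
      simp
    nlinarith [W_le u h x, W_nonneg u h x, eta_nonneg N δ (inner ℝ x e)]
  have h2 : ∫ x in {x : F | |(inner ℝ x e : ℝ)| ≤ 1 / c}, W u h x ∂μ ≤
      4 * ∫ x, eta N δ (inner ℝ x e) * W u h x ∂μ := by
    calc ∫ x in {x : F | |(inner ℝ x e : ℝ)| ≤ 1 / c}, W u h x ∂μ
        ≤ ∫ x in {x : F | |(inner ℝ x e : ℝ)| ≤ 1 / c},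
          4 * (eta N δ (inner ℝ x e) * W u h x) ∂μ := by
          apply setIntegral_mono_on hWi.integrableOn (hηi.const_mul 4).integrableOn hmeas
          intro x hx
          have h3 : 1 / 4 ≤ eta N δ (inner ℝ x e) := by
            apply eta_lower hN hδ0.le
            rw [hNδ]
            have : |(inner ℝ x e : ℝ)| ≤ 1 / c := hx
            calc c * |(inner ℝ x e : ℝ)| ≤ c * (1 / c) := by gcongr
              _ = 1 := by field_simp
          nlinarith [W_nonneg u h x]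
      _ ≤ ∫ x, 4 * (eta N δ (inner ℝ x e) * W u h x) ∂μ := by
          apply setIntegral_le_integral (hηi.const_mul 4)
          refine Filter.Eventually.of_forall fun x => ?_
          have := mul_nonneg (eta_nonneg N δ (inner ℝ x e)) (W_nonneg u h x)
          simp only [Pi.zero_apply]
          positivity
      _ = 4 * ∫ x, eta N δ (inner ℝ x e) * W u h x ∂μ := integral_const_mul _ _
  rw [integral_div, div_le_iff₀ hh0]
  refine (h2.trans (mul_le_mul_of_nonneg_left h1 (by norm_num))).trans (le_of_eq ?_)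
  have h4 : ‖T μ e u 0 h‖ / N = ‖T μ e u 0 h‖ * (2 * C / c) * h ^ 2 := by
    rw [hh]; field_simp
  rw [h4]
  ring

lemma tendsto_W {u : F} (x : F) {h : ℕ → ℝ} (hh : ∀ N, h N ≠ 0) (hlim : Tendsto h atTop (𝓝 0)) :
    Tendsto (fun N => W u (h N) x / (h N) ^ 2) atTop (𝓝 ((inner ℝ x u : ℝ) ^ 2)) := by
  obtain ⟨y, hy⟩ : ∃ y : ℝ, y = inner ℝ x u := ⟨_, rfl⟩
  have hsmall : ∀ᶠ N in atTop, |h N * y| ≤ 1 := by
    have h1 : Tendsto (fun N => |h N * y|) atTop (𝓝 0) := by
      have := (hlim.mul_const y).abs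
      simpa using this
    have h2 := h1.eventually (Metric.ball_mem_nhds 0 one_pos)
    filter_upwards [h2] with N hN
    rw [dist_zero_right, Real.norm_eq_abs, abs_abs] at hN
    exact hN.le
  rw [← hy, ← tendsto_sub_nhds_zero_iff]
  have hbd : Tendsto (fun N => (h N) ^ 2 * y ^ 4) atTop (𝓝 0) := by
    have := (hlim.pow 2).mul_const (y ^ 4)
    simpa using this
  refine squeeze_zero_norm' ?_ hbd
  filter_upwards [hsmall] with N hN
  have h1 := Real.cos_bound hN
  have h2 : W u (h N) x / (h N) ^ 2 - y ^ 2 =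
      -(2 * (Real.cos (h N * y) - (1 - (h N * y) ^ 2 / 2))) / (h N) ^ 2 := by
    unfold W
    rw [← hy]
    have := hh N
    field_simp
    ring
  have hpos : 0 < (h N) ^ 2 := by have := hh N; positivity
  rw [h2, norm_div, norm_neg, norm_mul, Real.norm_eq_abs, Real.norm_eq_abs, Real.norm_eq_abs,
    abs_of_pos hpos, div_le_iff₀ hpos, abs_two]
  calc 2 * |Real.cos (h N * y) - (1 - (h N * y) ^ 2 / 2)| ≤ 2 * (|h N * y| ^ 4 * (5 / 96)) := by
        gcongr
    _ ≤ |h N * y| ^ 4 := by nlinarith [pow_nonneg (abs_nonneg (h N * y)) 4]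
    _ = (h N) ^ 2 * y ^ 4 * (h N) ^ 2 := by
        have : |h N * y| ^ 4 = (h N * y) ^ 4 := by
          rw [← abs_pow]; exact abs_of_nonneg (by positivity)
        rw [this]; ring

lemma tendsto_T {μ : Measure F} [IsFiniteMeasure μ] {e u : F} {h : ℕ → ℝ}
    (hlim : Tendsto h atTop (𝓝 0)) : Tendsto (fun N => T μ e u 0 (h N)) atTop (𝓝 0) := by
  have hc := continuous_phi μ e u 0
  have h1 : Continuous fun s => T μ e u 0 s := by
    unfold T
    have : Continuous fun s : ℝ => phi μ e u 0 (-s) := hc.comp continuous_neg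
    fun_prop
  have h2 := (h1.tendsto 0).comp hlim
  have h3 : T μ e u 0 0 = 0 := by unfold T; rw [neg_zero]; ring
  rw [h3] at h2
  exact h2

/-- finite second moment on slabs -/
lemma slab_moment {μ : Measure F} [IsFiniteMeasure μ] {e u : F} {Q : ℂ[X][X]} {c₀ C B : ℝ}
    (hreg : Reg μ e u Q c₀ C) (hC : 0 < C) (hB0 : 0 ≤ B)
    (hB : ∀ t s : ℝ, |t| ≤ c₀ → |s| ≤ 1 →
      ‖2 * qv Q t 0 - qv Q t s - qv Q t (-s)‖ ≤ B * s ^ 2)
    {c : ℝ} (hc : 0 < c) (hcc : c ≤ c₀) :
    ∫⁻ x in {x : F | |(inner ℝ x e : ℝ)| ≤ 1 / c}, ENNReal.ofReal ((inner ℝ x u : ℝ) ^ 2) ∂μ ≤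
      ENNReal.ofReal (4 * B) := by
  obtain ⟨h, hhd⟩ : ∃ h : ℕ → ℝ, h = fun N => Real.sqrt (c / (2 * C * (N + 1 : ℕ))) := ⟨_, rfl⟩
  have hhsq : ∀ N, (h N) ^ 2 = c / (2 * C * (N + 1 : ℕ)) := by
    intro N
    rw [hhd]
    exact Real.sq_sqrt (by positivity)
  have hh0 : ∀ N, h N ≠ 0 := by
    intro N h0
    have := hhsq N
    rw [h0] at this
    have : 0 < c / (2 * C * (N + 1 : ℕ)) := by positivity
    simp_all
  have hlim : Tendsto h atTop (𝓝 0) := by
    have h1 : Tendsto (fun N : ℕ => c / (2 * C * (N + 1 : ℕ))) atTop (𝓝 0) := by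
      have h2 := (tendsto_one_div_add_atTop_nhds_zero_nat (𝕜 := ℝ)).const_mul (c / (2 * C))
      rw [mul_zero] at h2
      refine h2.congr fun N => ?_
      push_cast
      field_simp
    have h3 := (Real.continuous_sqrt.tendsto 0).comp h1
    rw [Real.sqrt_zero] at h3
    rw [hhd]
    exact h3
  obtain ⟨S, hS⟩ : ∃ S : Set F, S = {x : F | |(inner ℝ x e : ℝ)| ≤ 1 / c} := ⟨_, rfl⟩
  rw [← hS]
  have hF : ∀ N, Measurable fun x : F => ENNReal.ofReal (W u (h N) x / (h N) ^ 2) := by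
    intro N
    have := (continuous_W u (h N)).measurable
    fun_prop
  have hfatou := lintegral_liminf_le (μ := μ.restrict S) (u := atTop)
    (f := fun (N : ℕ) (x : F) => ENNReal.ofReal (W u (h N) x / (h N) ^ 2)) hF
  have hpt : ∀ x : F, liminf (fun N => ENNReal.ofReal (W u (h N) x / (h N) ^ 2)) atTop =
      ENNReal.ofReal ((inner ℝ x u : ℝ) ^ 2) := by
    intro x
    exact (ENNReal.tendsto_ofReal (tendsto_W x hh0 hlim)).liminf_eq
  simp_rw [hpt] at hfatou
  refine hfatou.trans ?_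
  have hup : ∀ᶠ N in atTop, ∫⁻ x in S, ENNReal.ofReal (W u (h N) x / (h N) ^ 2) ∂μ ≤
      ENNReal.ofReal (4 * (‖T μ e u 0 (h N)‖ * (2 * C / c) + B)) := by
    have hle1 : ∀ᶠ N in atTop, |h N| ≤ 1 := by
      have h1 : Tendsto (fun N => |h N|) atTop (𝓝 0) := by simpa using hlim.abs
      have h2 := h1.eventually (Metric.ball_mem_nhds 0 one_pos)
      filter_upwards [h2] with N hN
      rw [dist_zero_right, Real.norm_eq_abs, abs_abs] at hN
      exact hN.le
    filter_upwards [hle1] with N hN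
    rw [← ofReal_integral_eq_lintegral_ofReal]
    · apply ENNReal.ofReal_le_ofReal
      rw [hS]
      exact slab_bound hreg hC hB0 hB hc hcc (Nat.succ_pos N) (hhsq N) hN
    · have hWi : Integrable (fun x => W u (h N) x) μ := by
        refine Integrable.mono' (integrable_const (4 : ℝ))
          (continuous_W u (h N)).aestronglyMeasurable ?_
        refine Filter.Eventually.of_forall fun x => ?_
        rw [Real.norm_eq_abs, abs_of_nonneg (W_nonneg u (h N) x)]
        exact W_le u (h N) x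
      exact (hWi.div_const _).integrableOn
    · refine Filter.Eventually.of_forall fun x => ?_
      exact div_nonneg (W_nonneg u (h N) x) (by positivity)
  have hlim2 : Tendsto (fun N => ENNReal.ofReal (4 * (‖T μ e u 0 (h N)‖ * (2 * C / c) + B))) atTop
      (𝓝 (ENNReal.ofReal (4 * B))) := by
    apply ENNReal.tendsto_ofReal
    have h1 := (tendsto_T (μ := μ) (e := e) (u := u) hlim).norm
    rw [norm_zero] at h1
    have h2 := ((h1.mul_const (2 * C / c)).add_const B).const_mul 4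
    simpa using h2
  calc liminf (fun N => ∫⁻ x in S, ENNReal.ofReal (W u (h N) x / (h N) ^ 2) ∂μ) atTop
      ≤ liminf (fun N => ENNReal.ofReal (4 * (‖T μ e u 0 (h N)‖ * (2 * C / c) + B))) atTop :=
        liminf_le_liminf hup
    _ = ENNReal.ofReal (4 * B) := hlim2.liminf_eq

/-- finite second moment -/
lemma moment_lt_top {μ : Measure F} [IsFiniteMeasure μ] {e u : F} {Q : ℂ[X][X]} {c₀ C : ℝ}
    (hreg : Reg μ e u Q c₀ C) (hc₀ : 0 < c₀) (hC : 0 < C) :
    ∫⁻ x, ENNReal.ofReal ((inner ℝ x u : ℝ) ^ 2) ∂μ < ⊤ := by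
  obtain ⟨B, hB0, hB⟩ := second_diff_bound Q c₀
  obtain ⟨S, hS⟩ : ∃ S : ℕ → Set F, S = fun k : ℕ => {x : F | |(inner ℝ x e : ℝ)| ≤ 1 / (c₀ / ((k : ℝ) + 1))} :=
    ⟨_, rfl⟩
  have hmono : Monotone S := by
    intro j k hjk x hx
    rw [hS] at hx ⊢
    simp only [Set.mem_setOf_eq, one_div_div] at hx ⊢
    refine hx.trans ?_
    have : (j : ℝ) ≤ k := by exact_mod_cast hjk
    gcongr
  have huniv : ⋃ k, S k = Set.univ := by
    rw [Set.eq_univ_iff_forall]
    intro x
    rw [Set.mem_iUnion]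
    obtain ⟨k, hk⟩ := exists_nat_ge (|(inner ℝ x e : ℝ)| * c₀)
    refine ⟨k, ?_⟩
    rw [hS]
    simp only [Set.mem_setOf_eq, one_div_div]
    rw [le_div_iff₀ hc₀]
    linarith
  have h1 := setLIntegral_iUnion_of_directed (μ := μ)
    (fun x => ENNReal.ofReal ((inner ℝ x u : ℝ) ^ 2)) (directed_of_isDirected_le hmono)
  rw [huniv, Measure.restrict_univ] at h1
  rw [h1]
  refine lt_of_le_of_lt (iSup_le fun k => ?_) (ENNReal.ofReal_lt_top (r := 4 * B))
  rw [hS]
  refine slab_moment hreg hC hB0 hB (by positivity) ?_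
  rw [div_le_iff₀ (by positivity)]
  nlinarith [(Nat.cast_nonneg k : (0:ℝ) ≤ k)]

end Pool.Agent.Lib.Pc23f48
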