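import Mathlib

set_option autoImplicit false
set_option linter.unusedSectionVars false

open MeasureTheory Filter Topology
open scoped ENNReal BoundedContinuousFunction CompactlySupported

namespace Pool.Agent.Lib.Pc23f48

section HB

variable {X : Type*} [TopologicalSpace X] [Nonempty X]
variable {B : Type*} [AddCommGroup B] [Module ℝ B]

lemma bddAbove_bcf (h : X →ᵇ ℝ) : BddAbove (Set.range fun x => h x) := by
  refine ⟨‖h‖, ?_⟩
  rintro _ ⟨x, rfl⟩
  exact (le_abs_self _).trans (h.norm_coe_le_norm x)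

lemma hb_extend (Γ : B →ₗ[ℝ] (X →ᵇ ℝ)) (ℓ : B →ₗ[ℝ] ℝ) (h : ∀ b, ℓ b ≤ ⨆ x, Γ b x) :
    ∃ Λ : (X →ᵇ ℝ) →ₗ[ℝ] ℝ, (∀ b, Λ (Γ b) = ℓ b) ∧ ∀ g, Λ g ≤ ⨆ x, g x := by
  have hom : ∀ c : ℝ, 0 < c → ∀ p : B × (X →ᵇ ℝ),
      (⨆ x, (Γ (c • p).1 x + (c • p).2 x)) = c * ⨆ x, (Γ p.1 x + p.2 x) := by
    intro c hc p
    rw [Real.mul_iSup_of_nonneg hc.le]
    congr 1
    ext x
    simp only [Prod.smul_fst, map_smul, Prod.smul_snd, BoundedContinuousFunction.coe_smul,
      smul_eq_mul]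
    ring
  have hadd : ∀ p q : B × (X →ᵇ ℝ), (⨆ x, (Γ (p + q).1 x + (p + q).2 x)) ≤
      (⨆ x, (Γ p.1 x + p.2 x)) + ⨆ x, (Γ q.1 x + q.2 x) := by
    intro p q
    apply ciSup_le
    intro x
    have h1 : BddAbove (Set.range fun x => Γ p.1 x + p.2 x) := bddAbove_bcf (Γ p.1 + p.2)
    have h2 : BddAbove (Set.range fun x => Γ q.1 x + q.2 x) := bddAbove_bcf (Γ q.1 + q.2)
    have h3 := le_ciSup h1 x
    have h4 := le_ciSup h2 x
    simp only [Prod.fst_add, map_add, BoundedContinuousFunction.coe_add, Pi.add_apply,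
      Prod.snd_add]
    linarith
  have hdom : ∀ x : ((ℓ.comp (LinearMap.fst ℝ B (X →ᵇ ℝ))).toPMap (Submodule.prod ⊤ ⊥)).domain,
      ((ℓ.comp (LinearMap.fst ℝ B (X →ᵇ ℝ))).toPMap (Submodule.prod ⊤ ⊥)) x ≤
        ⨆ y, (Γ (x : B × (X →ᵇ ℝ)).1 y + (x : B × (X →ᵇ ℝ)).2 y) := by
    rintro ⟨p, hp⟩
    have hp' : p ∈ Submodule.prod (⊤ : Submodule ℝ B) (⊥ : Submodule ℝ (X →ᵇ ℝ)) := hp
    rw [Submodule.mem_prod] at hp'
    have hp2 : p.2 = 0 := by simpa using hp'.2
    simp only [LinearMap.toPMap_apply, LinearMap.comp_apply, LinearMap.fst_apply, hp2]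
    simpa using h p.1
  obtain ⟨g, hg1, hg2⟩ := exists_extension_of_le_sublinear
    ((ℓ.comp (LinearMap.fst ℝ B (X →ᵇ ℝ))).toPMap (Submodule.prod ⊤ ⊥))
    (fun p => ⨆ x, (Γ p.1 x + p.2 x)) hom hadd hdom
  refine ⟨g.comp (LinearMap.inr ℝ B (X →ᵇ ℝ)), ?_, ?_⟩
  · intro b
    have e1 : g (b, 0) = ℓ b := hg1 ⟨(b, 0), by
      change (b, (0 : X →ᵇ ℝ)) ∈ Submodule.prod (⊤ : Submodule ℝ B) (⊥ : Submodule ℝ (X →ᵇ ℝ))
      simp⟩
    have e2 : g (b, -Γ b) ≤ 0 := by
      refine (hg2 _).trans ?_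
      simp
    have e3 : g (-b, Γ b) ≤ 0 := by
      refine (hg2 _).trans ?_
      simp
    have e4 : g (b, -Γ b) = g (b, 0) - g (0, Γ b) := by
      rw [← map_sub]; simp
    have e5 : g (-b, Γ b) = g (0, Γ b) - g (b, 0) := by
      rw [← map_sub]; simp
    simp only [LinearMap.comp_apply, LinearMap.inr_apply]
    linarith
  · intro h
    refine (hg2 _).trans (le_of_eq ?_)
    simp

end HB

section RMK

variable {X : Type*} [TopologicalSpace X] [T2Space X] [LocallyCompactSpace X]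
  [MeasurableSpace X] [BorelSpace X] [Nonempty X]
variable {B : Type*} [AddCommGroup B] [Module ℝ B]

lemma abs_le_of_le_sup {Λ : (X →ᵇ ℝ) →ₗ[ℝ] ℝ} (h : ∀ g, Λ g ≤ ⨆ x, g x) {g : X →ᵇ ℝ} {C : ℝ}
    (hg : ∀ x, |g x| ≤ C) : |Λ g| ≤ C := by
  rw [abs_le]
  constructor
  · have h1 := h (-g)
    have h2 : (⨆ x, (-g) x) ≤ C := ciSup_le fun x => (neg_le_abs (g x)).trans (hg x)
    rw [map_neg] at h1
    linarith
  · have h1 := h g
    have h2 : (⨆ x, g x) ≤ C := ciSup_le fun x => (le_abs_self (g x)).trans (hg x)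
    linarith

/-- Riesz representation of a functional dominated by the supremum. -/
lemma rmk_of_le_sup (Λ : (X →ᵇ ℝ) →ₗ[ℝ] ℝ) (h : ∀ g, Λ g ≤ ⨆ x, g x) :
    ∃ μ : Measure X, μ Set.univ ≤ 1 ∧
      ∀ g : X →ᵇ ℝ, Tendsto g (cocompact X) (𝓝 0) → ∫ x, g x ∂μ = Λ g := by
  let T : C_c(X, ℝ) →ₗ[ℝ] ℝ :=
    { toFun := fun f => Λ f.toBoundedContinuousFunction
      map_add' := by
        intro f g
        rw [← map_add]
        congr 1
      map_smul' := by
        intro c f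
        rw [RingHom.id_apply, smul_eq_mul, ← smul_eq_mul, ← map_smul]
        congr 1 }
  let L : C_c(X, ℝ) →ₚ[ℝ] ℝ := PositiveLinearMap.mk₀ T (by
    intro f hf
    change 0 ≤ Λ f.toBoundedContinuousFunction
    have h1 := h (-f.toBoundedContinuousFunction)
    have h2 : (⨆ x, (-f.toBoundedContinuousFunction) x) ≤ 0 := by
      apply ciSup_le
      intro x
      have : 0 ≤ f x := hf x
      simpa using this
    rw [map_neg] at h1
    linarith)
  have hL : ∀ f : C_c(X, ℝ), L f = Λ f.toBoundedContinuousFunction := fun f => rfl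
  have hμ := RealRMK.integral_rieszMeasure L
  obtain ⟨μ, hμd⟩ : ∃ μ, μ = RealRMK.rieszMeasure L := ⟨_, rfl⟩
  have hreg : μ.Regular := by rw [hμd]; infer_instance
  rw [← hμd] at hμ
  have hcomp : ∀ K : Set X, IsCompact K → μ K ≤ 1 := by
    intro K hK
    obtain ⟨φ, hφ1, -, hφc, hφI⟩ := exists_continuous_one_zero_of_isCompact hK isClosed_empty
      (Set.disjoint_empty K)
    let f : C_c(X, ℝ) := ⟨φ, hφc⟩
    have hf := hμ f
    have hint : Integrable (fun x => f x) μ := φ.continuous.integrable_of_hasCompactSupport hφc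
    have h1 : μ K ≤ ENNReal.ofReal (∫ x, f x ∂μ) := by
      rw [ofReal_integral_eq_lintegral_ofReal hint
        (Filter.Eventually.of_forall fun x => (hφI x).1)]
      calc μ K = ∫⁻ x in K, 1 ∂μ := by simp
        _ ≤ ∫⁻ x in K, ENNReal.ofReal (f x) ∂μ := by
          apply setLIntegral_mono' hK.measurableSet
          intro x hx
          have : f x = 1 := hφ1 hx
          rw [this]; simp
        _ ≤ ∫⁻ x, ENNReal.ofReal (f x) ∂μ := setLIntegral_le_lintegral _ _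
    refine h1.trans ?_
    rw [hf, hL]
    rw [ENNReal.ofReal_le_one]
    refine (h _).trans (ciSup_le fun x => ?_)
    exact (hφI x).2
  have huniv : μ Set.univ ≤ 1 := by
    rw [isOpen_univ.measure_eq_iSup_isCompact μ]
    exact iSup₂_le fun K _ => iSup_le fun hK => hcomp K hK
  refine ⟨μ, huniv, ?_⟩
  have hfin : IsFiniteMeasure μ := ⟨huniv.trans_lt ENNReal.one_lt_top⟩
  intro g hg
  have key : ∀ ε > 0, |∫ x, g x ∂μ - Λ g| ≤ 2 * ε := by
    intro ε hε
    have hK : ∀ᶠ x in cocompact X, |g x| < ε := by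
      have := hg.eventually (Metric.ball_mem_nhds 0 hε)
      filter_upwards [this] with x hx
      simpa using hx
    rw [hasBasis_cocompact.eventually_iff] at hK
    obtain ⟨K, hKc, hK⟩ := hK
    obtain ⟨φ, hφ1, -, hφc, hφI⟩ := exists_continuous_one_zero_of_isCompact hKc isClosed_empty
      (Set.disjoint_empty K)
    let f : C_c(X, ℝ) := ⟨⟨fun x => g x * φ x, by fun_prop⟩, hφc.mul_left⟩
    have hf := hμ f
    have hdiff : ∀ x, |g x - f x| ≤ ε := by
      intro x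
      change |g x - g x * φ x| ≤ ε
      have h1 : g x - g x * φ x = g x * (1 - φ x) := by ring
      rw [h1, abs_mul]
      by_cases hx : x ∈ K
      · have : φ x = 1 := hφ1 hx
        rw [this]; simp; exact hε.le
      · have h2 := hK hx
        have h3 : |1 - φ x| ≤ 1 := by
          rw [abs_le]
          have := hφI x
          constructor <;> linarith [this.1, this.2]
        nlinarith [abs_nonneg (g x), abs_nonneg (1 - φ x)]
    have e1 : |Λ (g - f.toBoundedContinuousFunction)| ≤ ε := abs_le_of_le_sup h hdiff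
    have hgi : Integrable (fun x => g x) μ := g.integrable μ
    have hfi : Integrable (fun x => f x) μ := f.toBoundedContinuousFunction.integrable μ
    have e2 : |∫ x, g x ∂μ - ∫ x, f x ∂μ| ≤ ε := by
      rw [← integral_sub hgi hfi]
      have := norm_integral_le_of_norm_le_const (μ := μ) (f := fun x => g x - f x) (C := ε)
        (Filter.Eventually.of_forall hdiff)
      rw [Real.norm_eq_abs] at this
      refine this.trans ?_
      have h1 : μ.real Set.univ ≤ 1 := by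
        rw [Measure.real]
        exact ENNReal.toReal_le_of_le_ofReal (by norm_num) (by simpa using huniv)
      nlinarith
    rw [map_sub, ← hL, ← hf] at e1
    have : ∫ x, g x ∂μ - Λ g = (∫ x, g x ∂μ - ∫ x, f x ∂μ) - (Λ g - ∫ x, f x ∂μ) := by ring
    rw [this]
    refine (abs_sub _ _).trans ?_
    linarith
  have h0 : |∫ x, g x ∂μ - Λ g| ≤ 0 := by
    apply le_of_forall_pos_le_add
    intro ε hε
    have := key (ε / 2) (by positivity)
    linarith
  have := abs_nonpos_iff.1 h0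
  linarith

lemma exists_measure (Γ : B →ₗ[ℝ] (X →ᵇ ℝ)) (ℓ : B →ₗ[ℝ] ℝ) (h : ∀ b, ℓ b ≤ ⨆ x, Γ b x) :
    ∃ μ : Measure X, μ Set.univ ≤ 1 ∧
      ∀ b, Tendsto (Γ b) (cocompact X) (𝓝 0) → ∫ x, Γ b x ∂μ = ℓ b := by
  obtain ⟨Λ, h1, h2⟩ := hb_extend Γ ℓ h
  obtain ⟨μ, h3, h4⟩ := rmk_of_le_sup Λ h2
  exact ⟨μ, h3, fun b hb => by rw [h4 _ hb, h1]⟩

end RMK

end Pool.Agent.Lib.Pc23f48
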