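import Pool.Agent.Lib.Pc23f48.Bern
import Pool.Agent.Lib.Pc23f48.Rmk

set_option autoImplicit false

open MeasureTheory Complex FourierTransform Real Filter Topology
open scoped ENNReal ContDiff BoundedContinuousFunction ComplexConjugate

namespace Pool.Agent.Lib.Pc23f48

variable {n : ℕ}

lemma norm_bound {τ : MvPolynomial (Fin n) ℂ} {r : ℝ} {ξ₀ : E n}
    (hnorm : opNorm τ (Metric.closedBall 0 r) ≤ ‖symb τ ξ₀‖ₑ)
    {β : Measure (E n)} [IsFiniteMeasure β]
    (hβK : ∀ᵐ ζ ∂β, ζ ∈ Metric.closedBall (0 : E n) r)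
    {b : E n → ℂ} (hb : Integrable b β) {S : ℝ} (hS : 0 < S) (hG : ∀ x, ‖G β b x‖ ≤ S) :
    ‖∫ ζ, symb τ ζ * b ζ ∂β‖ ≤ S * ‖symb τ ξ₀‖ := by
  have hβ : ∀ᵐ ζ ∂β, ‖ζ‖ ≤ r := by
    filter_upwards [hβK] with ζ hζ
    simpa using hζ
  obtain ⟨b', hb'd⟩ : ∃ b' : E n → ℂ, b' = fun ζ => ((1 / S : ℝ) : ℂ) * b ζ := ⟨_, rfl⟩
  have hb' : Integrable b' β := by rw [hb'd]; exact hb.const_mul _
  have hGb' : ∀ x, G β b' x = ((1 / S : ℝ) : ℂ) * G β b x := by
    intro x
    unfold G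
    rw [← integral_const_mul]
    congr 1
    ext ζ
    rw [hb'd]
    ring
  have hmem := G_mem_Bernstein hβK hβ hb'
  have hle : ∀ x, ‖G β b' x‖ ≤ 1 := by
    intro x
    rw [hGb', norm_mul, Complex.norm_real, Real.norm_eq_abs, abs_of_pos (by positivity)]
    have := hG x
    calc 1 / S * ‖G β b x‖ ≤ 1 / S * S := by gcongr
      _ = 1 := by field_simp
  have h1 : ‖opD τ (G β b') 0‖ₑ ≤ opNorm τ (Metric.closedBall 0 r) := by
    unfold opNorm
    refine le_iSup₂_of_le (G β b') ⟨hmem, hle⟩ ?_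
    exact le_iSup (fun x => ‖opD τ (G β b') x‖ₑ) 0
  have h2 : opD τ (G β b') 0 = ((1 / S : ℝ) : ℂ) * ∫ ζ, symb τ ζ * b ζ ∂β := by
    rw [opD_G hβ hb']
    unfold G
    rw [← integral_const_mul]
    congr 1
    ext ζ
    rw [inner_zero_left, hb'd]
    simp only [Complex.ofReal_zero, mul_zero, Complex.exp_zero, mul_one]
    ring
  have h3 := h1.trans hnorm
  rw [h2, enorm_le_iff_norm_le, norm_mul, Complex.norm_real, Real.norm_eq_abs,
    abs_of_pos (by positivity)] at h3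
  calc ‖∫ ζ, symb τ ζ * b ζ ∂β‖ = S * (1 / S * ‖∫ ζ, symb τ ζ * b ζ ∂β‖) := by field_simp
    _ ≤ S * ‖symb τ ξ₀‖ := by gcongr

lemma continuous_symb (τ : MvPolynomial (Fin n) ℂ) : Continuous (symb τ) := by
  unfold symb
  have : Continuous fun v : Fin n → ℂ => MvPolynomial.eval v τ := MvPolynomial.continuous_eval τ
  exact this.comp (by fun_prop)

/-- integral over the ball -/
noncomputable def gK (r : ℝ) (b : E n → ℂ) (x : E n) : ℂ :=
  G (volume.restrict (Metric.closedBall (0 : E n) r)) b x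

lemma integrableOn_K (r : ℝ) {b : E n → ℂ} (hb : Continuous b) :
    Integrable b (volume.restrict (Metric.closedBall (0 : E n) r)) :=
  hb.continuousOn.integrableOn_compact (isCompact_closedBall 0 r)

instance (r : ℝ) : IsFiniteMeasure (volume.restrict (Metric.closedBall (0 : E n) r)) :=
  ⟨by rw [Measure.restrict_apply_univ]; exact measure_closedBall_lt_top⟩

lemma ae_K (r : ℝ) : ∀ᵐ ζ ∂(volume.restrict (Metric.closedBall (0 : E n) r)),
    ζ ∈ Metric.closedBall (0 : E n) r :=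
  ae_restrict_mem measurableSet_closedBall

lemma ae_K' (r : ℝ) : ∀ᵐ ζ ∂(volume.restrict (Metric.closedBall (0 : E n) r)), ‖ζ‖ ≤ r := by
  filter_upwards [ae_K r] with ζ hζ
  simpa using hζ

lemma star_bound [NeZero n] {τ : MvPolynomial (Fin n) ℂ} {r : ℝ} {ξ₀ : E n} (hξ : ‖ξ₀‖ ≤ r)
    (hne : symb τ ξ₀ ≠ 0)
    (hnorm : opNorm τ (Metric.closedBall 0 r) ≤ ‖symb τ ξ₀‖ₑ)
    {b : E n → ℂ} (hb : Continuous b) (c : ℂ) {S : ℝ} (hS : 0 < S)
    (hG : ∀ x, ‖Complex.exp (-(Complex.I * ((inner ℝ x ξ₀ : ℝ) : ℂ))) * gK r b x + c‖ ≤ S) :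
    ‖(∫ ζ in Metric.closedBall (0 : E n) r, (symb τ ζ / symb τ ξ₀) * b ζ) + c‖ ≤ S := by
  classical
  obtain ⟨β, hβd⟩ : ∃ β : Measure (E n), β = volume.restrict (Metric.closedBall (0 : E n) r) +
      Measure.dirac ξ₀ := ⟨_, rfl⟩
  have hβf : IsFiniteMeasure β := by rw [hβd]; infer_instance
  obtain ⟨b', hb'd⟩ : ∃ b' : E n → ℂ, b' = fun ζ => if ζ = ξ₀ then c else b ζ := ⟨_, rfl⟩
  have hae : ∀ᵐ ζ ∂(volume.restrict (Metric.closedBall (0 : E n) r)), b' ζ = b ζ := by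
    apply ae_restrict_of_ae
    have : Nontrivial (E n) := by
      have : Nonempty (Fin n) := ⟨⟨0, Nat.pos_of_neZero n⟩⟩
      infer_instance
    have h0 : (volume : Measure (E n)) {ξ₀} = 0 := measure_singleton ξ₀
    have h1 : ∀ᵐ ζ ∂(volume : Measure (E n)), ζ ≠ ξ₀ := by
      rw [ae_iff]; simpa using h0
    filter_upwards [h1] with ζ hζ
    rw [hb'd]; simp [hζ]
  have hi1 : Integrable b' (volume.restrict (Metric.closedBall (0 : E n) r)) :=
    (integrableOn_K r hb).congr (hae.mono fun ζ h => h.symm)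
  have hi2 : Integrable b' (Measure.dirac ξ₀) := by
    exact integrable_dirac (by simp)
  have hi : Integrable b' β := by
    rw [hβd]; exact hi1.add_measure hi2
  have hβK : ∀ᵐ ζ ∂β, ζ ∈ Metric.closedBall (0 : E n) r := by
    rw [hβd, ae_add_measure_iff]
    refine ⟨ae_K r, ?_⟩
    rw [ae_dirac_iff]
    · simpa using hξ
    · exact measurableSet_closedBall
  have hint : ∀ F : E n → ℂ, Integrable F (volume.restrict (Metric.closedBall (0 : E n) r)) →
      ∫ ζ, F ζ ∂β = (∫ ζ in Metric.closedBall (0 : E n) r, F ζ) + F ξ₀ := by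
    intro F hF
    rw [hβd, integral_add_measure hF (integrable_dirac (by simp)), integral_dirac]
  have hexp : ∀ x : E n, Integrable (fun ζ => b' ζ *
      Complex.exp (Complex.I * ((inner ℝ x ζ : ℝ) : ℂ)))
      (volume.restrict (Metric.closedBall (0 : E n) r)) := by
    intro x
    refine Integrable.mono' hi1.norm ?_ ?_
    · exact hi1.1.mul (by fun_prop : Continuous fun ζ : E n =>
        Complex.exp (Complex.I * ((inner ℝ x ζ : ℝ) : ℂ))).aestronglyMeasurable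
    · filter_upwards with ζ
      rw [norm_mul, norm_exp_I, mul_one]
  have hGx : ∀ x, G β b' x = gK r b x + c * Complex.exp (Complex.I * ((inner ℝ x ξ₀ : ℝ) : ℂ)) := by
    intro x
    unfold gK G
    rw [hint _ (hexp x)]
    congr 1
    · apply integral_congr_ae
      filter_upwards [hae] with ζ hζ
      rw [hζ]
    · rw [hb'd]; simp
  have hGn : ∀ x, ‖G β b' x‖ ≤ S := by
    intro x
    rw [hGx]
    have h1 := hG x
    have h2 : gK r b x + c * Complex.exp (Complex.I * ((inner ℝ x ξ₀ : ℝ) : ℂ)) =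
        Complex.exp (Complex.I * ((inner ℝ x ξ₀ : ℝ) : ℂ)) *
        (Complex.exp (-(Complex.I * ((inner ℝ x ξ₀ : ℝ) : ℂ))) * gK r b x + c) := by
      rw [mul_add, ← mul_assoc, ← Complex.exp_add, add_neg_cancel, Complex.exp_zero, one_mul]
      ring
    rw [h2, norm_mul, norm_exp_I, one_mul]
    exact h1
  have hmain := norm_bound hnorm hβK hi hS hGn
  have hsi : Integrable (fun ζ => symb τ ζ * b' ζ)
      (volume.restrict (Metric.closedBall (0 : E n) r)) := by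
    refine (integrableOn_K r ((continuous_symb τ).mul hb)).congr ?_
    filter_upwards [hae] with ζ hζ
    rw [hζ]
    rfl
  rw [hint _ hsi] at hmain
  have e1 : (∫ ζ in Metric.closedBall (0 : E n) r, symb τ ζ * b' ζ) + symb τ ξ₀ * b' ξ₀ =
      symb τ ξ₀ * ((∫ ζ in Metric.closedBall (0 : E n) r, (symb τ ζ / symb τ ξ₀) * b ζ) + c) := by
    rw [mul_add, ← integral_const_mul]
    congr 1
    · apply integral_congr_ae
      filter_upwards [hae] with ζ hζ
      rw [hζ]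
      field_simp
    · rw [hb'd]; simp
  rw [e1, norm_mul, mul_comm] at hmain
  exact le_of_mul_le_mul_right hmain (norm_pos_iff.2 hne)

/-- real part version with supremum -/
lemma re_bound [NeZero n] {τ : MvPolynomial (Fin n) ℂ} {r : ℝ} {ξ₀ : E n} (hξ : ‖ξ₀‖ ≤ r)
    (hne : symb τ ξ₀ ≠ 0)
    (hnorm : opNorm τ (Metric.closedBall 0 r) ≤ ‖symb τ ξ₀‖ₑ)
    {b : E n → ℂ} (hb : Continuous b) (c : ℂ) {C m : ℝ}
    (hC : ∀ x, ‖Complex.exp (-(Complex.I * ((inner ℝ x ξ₀ : ℝ) : ℂ))) * gK r b x + c‖ ≤ C)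
    (hm : ∀ x, (Complex.exp (-(Complex.I * ((inner ℝ x ξ₀ : ℝ) : ℂ))) * gK r b x + c).re ≤ m) :
    ((∫ ζ in Metric.closedBall (0 : E n) r, (symb τ ζ / symb τ ξ₀) * b ζ) + c).re ≤ m := by
  by_contra hlt
  push Not at hlt
  obtain ⟨v, hv⟩ : ∃ v, v = (∫ ζ in Metric.closedBall (0 : E n) r,
    (symb τ ζ / symb τ ξ₀) * b ζ) + c := ⟨_, rfl⟩
  rw [← hv] at hlt
  have hC0 : 0 ≤ C := (norm_nonneg _).trans (hC 0)
  obtain ⟨d, hd⟩ : ∃ d, d = v.re - m := ⟨_, rfl⟩
  have hd0 : 0 < d := by linarith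
  obtain ⟨R, hR⟩ : ∃ R, R = C + |m| + C ^ 2 / d + 1 := ⟨_, rfl⟩
  have hR0 : 0 ≤ C ^ 2 / d := by positivity
  have hRC : C ≤ R := by rw [hR]; linarith [abs_nonneg m]
  have hRm : C ^ 2 / d + 1 ≤ R + m := by
    rw [hR]; linarith [neg_abs_le m]
  have hRm0 : 0 < R + m := by linarith
  have hb2 := star_bound hξ hne hnorm hb (c + (R : ℂ)) (S := Real.sqrt ((R + m) ^ 2 + C ^ 2))
    (by positivity) (by
      intro x
      apply Real.le_sqrt_of_sq_le
      rw [← add_assoc]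
      obtain ⟨w, hw⟩ : ∃ w, w = Complex.exp (-(Complex.I * ((inner ℝ x ξ₀ : ℝ) : ℂ))) * gK r b x + c
        := ⟨_, rfl⟩
      have h1 := hC x
      have h2 := hm x
      rw [← hw] at h1 h2 ⊢
      have h3 : ‖w + (R : ℂ)‖ ^ 2 = (w.re + R) ^ 2 + w.im ^ 2 := by
        rw [← Complex.normSq_eq_norm_sq, Complex.normSq_apply]
        simp
        ring
      rw [h3]
      have h4 : -C ≤ w.re := by
        have := (abs_le.1 (Complex.abs_re_le_norm w)).1
        linarith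
      have h5 : w.im ^ 2 ≤ C ^ 2 := by
        have := (Complex.abs_im_le_norm w).trans h1
        rw [← sq_abs]
        gcongr
      have h6 : (w.re + R) ^ 2 ≤ (R + m) ^ 2 := by
        apply pow_le_pow_left₀ <;> linarith
      linarith)
  rw [← add_assoc, ← hv] at hb2
  have h7 : v.re + R ≤ Real.sqrt ((R + m) ^ 2 + C ^ 2) := by
    refine le_trans ?_ hb2
    have := Complex.re_le_norm (v + (R : ℂ))
    simpa using this
  have h8 : v.re + R = R + m + d := by rw [hd]; ring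
  rw [h8] at h7
  have h9 : (R + m + d) ^ 2 ≤ (R + m) ^ 2 + C ^ 2 := by
    rw [← Real.sqrt_le_sqrt_iff (by positivity)]
    rw [Real.sqrt_sq (by linarith)]
    exact h7
  have h10 : d * (C ^ 2 / d + 1) ≤ d * (R + m) := by gcongr
  have h11 : d * (C ^ 2 / d + 1) = C ^ 2 + d := by field_simp
  nlinarith

end Pool.Agent.Lib.Pc23f48
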